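import Mathlib
set_option autoImplicit false
open Finset

/-!
Conflict-free colouring of discs, each of which meets at most `k` others: the least number of
colours that always suffices is of order `log k`.

Upper bound: (1) four shifted quadtrees and packing give, in each of four classes, balanced
separations of size `O(k)`; (2) with degree at most `k` this gives a two-colouring of each class
whose monochromatic components have `O(k^2)` discs; (3) a family of `n` discs has a conflict-free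
colouring with `O(log n)` colours, used in each component with eight disjoint palettes.
-/

namespace Pool.Agent.Results.MP_91129c_co.LogOrder

/-- the Euclidean plane -/
abbrev Plane := EuclideanSpace ℝ (Fin 2)

/-- the closed disc with centre `d.1` and radius `d.2` -/
def disc (d : Plane × ℝ) : Set Plane := Metric.closedBall d.1 d.2

/-- `D` is a finite family of discs (of positive radius), each of which intersects at most `k`
other discs of `D` -/
def Admissible (k : ℕ) (D : Finset (Plane × ℝ)) : Prop :=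
  (∀ d ∈ D, 0 < d.2) ∧
    ∀ d ∈ D, {e | e ∈ D ∧ e ≠ d ∧ (disc d ∩ disc e).Nonempty}.ncard ≤ k

/-- the colouring `χ` of `D` is conflict-free: each point of the union of the discs lies in a disc
whose colour differs from the colours of all other discs containing the point -/
def ConflictFree (D : Finset (Plane × ℝ)) {m : ℕ} (χ : D → Fin m) : Prop :=
  ∀ p : Plane, (∃ d : D, p ∈ disc d.1) →
    ∃ d : D, p ∈ disc d.1 ∧ ∀ e : D, p ∈ disc e.1 → e ≠ d → χ e ≠ χ d

/-- the least `m` such that every admissible family has a conflict-free colouring with `m` colours -/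
noncomputable def f (k : ℕ) : ℕ :=
  sInf {m : ℕ | ∀ D : Finset (Plane × ℝ), Admissible k D → ∃ χ : D → Fin m, ConflictFree D χ}



/-- the point `(a,b)` lies in the closed disc number `i` -/
def Mem {ι : Type*} (x y r : ι → ℝ) (a b : ℝ) (i : ι) : Prop :=
  (a - x i) ^ 2 + (b - y i) ^ 2 ≤ (r i) ^ 2

/-- discs `i` and `j` meet -/
def Adj {ι : Type*} (x y r : ι → ℝ) (i j : ι) : Prop :=
  ∃ a b : ℝ, Mem x y r a b i ∧ Mem x y r a b j

/-- `χ` is conflict-free on `D` -/
def CF {ι : Type*} (x y r : ι → ℝ) (D : Finset ι) (χ : ι → ℕ) : Prop :=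
  ∀ a b : ℝ, (∃ i ∈ D, Mem x y r a b i) →
    ∃ i ∈ D, Mem x y r a b i ∧ ∀ j ∈ D, Mem x y r a b j → j ≠ i → χ j ≠ χ i

/-- height at abscissa `t` of the line through the points `a` and `b` -/
noncomputable def ht {ι : Type*} (x y : ι → ℝ) (a b : ι) (t : ℝ) : ℝ :=
  y a + (y b - y a) / (x b - x a) * (t - x a)

/-- slope of the edge `e` -/
noncomputable def sl {ι : Type*} (x y : ι → ℝ) (e : ι × ι) : ℝ :=
  (y e.2 - y e.1) / (x e.2 - x e.1)

/-- a non-crossing geometric graph in general position; edges point to the right -/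
structure PG {ι : Type*} (V : Finset ι) (x y : ι → ℝ) (E : Finset (ι × ι)) : Prop where
  hx : ∀ a ∈ V, ∀ b ∈ V, a ≠ b → x a ≠ x b
  hcol : ∀ a ∈ V, ∀ b ∈ V, ∀ c ∈ V, a ≠ b → b ≠ c → a ≠ c →
    (x b - x a) * (y c - y a) - (x c - x a) * (y b - y a) ≠ 0
  hE : ∀ e ∈ E, e.1 ∈ V ∧ e.2 ∈ V ∧ x e.1 < x e.2
  hcross : ∀ e ∈ E, ∀ f ∈ E, e.1 ≠ f.1 → e.1 ≠ f.2 → e.2 ≠ f.1 → e.2 ≠ f.2 →
    ∀ t : ℝ, x e.1 ≤ t → t ≤ x e.2 → x f.1 ≤ t → t ≤ x f.2 → ht x y e.1 e.2 t ≠ ht x y f.1 f.2 t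

/-- `f` is the edge immediately below `e` at their common left endpoint -/
def Gap {ι : Type*} (x y : ι → ℝ) (E : Finset (ι × ι)) (e f : ι × ι) : Prop :=
  e ∈ E ∧ f ∈ E ∧ f.1 = e.1 ∧ sl x y f < sl x y e ∧
    ∀ g ∈ E, g.1 = e.1 → sl x y g < sl x y e → sl x y g ≤ sl x y f

/-- `w` lies in the open triangle between `e` and `f`, left of both right endpoints -/
def InW {ι : Type*} (V : Finset ι) (x y : ι → ℝ) (e f : ι × ι) (w : ι) : Prop :=
  w ∈ V ∧ x e.1 < x w ∧ x w < x e.2 ∧ x w < x f.2 ∧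
    ht x y e.1 f.2 (x w) < y w ∧ y w < ht x y e.1 e.2 (x w)

/-- two vertex-disjoint edges cannot change their vertical order on a common interval -/
theorem no_sign_change {ι : Type*} {V : Finset ι} {x y : ι → ℝ} {E : Finset (ι × ι)} (h : PG V x y E)
    {e f : ι × ι} (he : e ∈ E) (hf : f ∈ E) (h11 : e.1 ≠ f.1) (h12 : e.1 ≠ f.2) (h21 : e.2 ≠ f.1)
    (h22 : e.2 ≠ f.2) {s t : ℝ} (hs1 : x e.1 ≤ s) (hs2 : s ≤ x e.2) (hs3 : x f.1 ≤ s) (hs4 : s ≤ x f.2)
    (ht1 : x e.1 ≤ t) (ht2 : t ≤ x e.2) (ht3 : x f.1 ≤ t) (ht4 : t ≤ x f.2)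
    (hs : ht x y f.1 f.2 s < ht x y e.1 e.2 s) (ht' : ht x y e.1 e.2 t < ht x y f.1 f.2 t) : False := by
  have hc : Continuous (fun u => ht x y e.1 e.2 u - ht x y f.1 f.2 u) := by
    unfold ht
    fun_prop
  have hivt := intermediate_value_uIcc (a := s) (b := t) hc.continuousOn
  have h0 : (0 : ℝ) ∈ Set.uIcc (ht x y e.1 e.2 s - ht x y f.1 f.2 s)
      (ht x y e.1 e.2 t - ht x y f.1 f.2 t) := by
    rw [Set.mem_uIcc]
    right
    constructor <;> linarith
  obtain ⟨u, hu, hu0⟩ := hivt h0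
  have h1 : x e.1 ≤ u ∧ u ≤ x e.2 ∧ x f.1 ≤ u ∧ u ≤ x f.2 := by
    rcases Set.mem_uIcc.1 hu with ⟨h2, h3⟩ | ⟨h2, h3⟩ <;>
      exact ⟨by linarith, by linarith, by linarith, by linarith⟩
  exact h.hcross e he f hf h11 h12 h21 h22 u h1.1 h1.2.1 h1.2.2.1 h1.2.2.2 (sub_eq_zero.1 hu0)

theorem gap_left_aux {ι : Type*} {V : Finset ι} {x y : ι → ℝ} {E : Finset (ι × ι)} (h : PG V x y E)
    {e f e' : ι × ι} (he : e ∈ E) (hf : f ∈ E) (hfe : f.1 = e.1) (hsl : sl x y f < sl x y e)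
    (he' : e' ∈ E) (hW : ∀ w, ¬ InW V x y e f w) (hlt : x e.2 < x f.2) (heq : e.2 = e'.2)
    (hne : e.1 ≠ e'.1) (hs : sl x y e < sl x y e') : False := by
  obtain ⟨haV, hbV, hab⟩ := h.hE e he
  obtain ⟨-, hcV, hac⟩ := h.hE f hf
  obtain ⟨ha'V, -, ha'b⟩ := h.hE e' he'
  rw [hfe] at hac
  rw [← heq] at ha'b
  obtain ⟨s1, hs1⟩ : ∃ s1, s1 = sl x y e := ⟨_, rfl⟩
  obtain ⟨s2, hs2⟩ : ∃ s2, s2 = sl x y f := ⟨_, rfl⟩
  obtain ⟨s3, hs3⟩ : ∃ s3, s3 = sl x y e' := ⟨_, rfl⟩
  have h1 : ∀ t, ht x y e.1 e.2 t = y e.1 + s1 * (t - x e.1) := fun t => by rw [hs1]; rfl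
  have h2 : ∀ t, ht x y e.1 f.2 t = y e.1 + s2 * (t - x e.1) := fun t => by
    rw [hs2]; unfold sl ht; rw [hfe]
  have h3 : ∀ t, ht x y e'.1 e'.2 t = y e'.1 + s3 * (t - x e'.1) := fun t => by rw [hs3]; rfl
  have k1 : y e.2 = y e.1 + s1 * (x e.2 - x e.1) := by
    have : x e.2 - x e.1 ≠ 0 := by linarith
    rw [hs1]; unfold sl; field_simp; ring
  have k2 : y f.2 = y e.1 + s2 * (x f.2 - x e.1) := by
    have : x f.2 - x e.1 ≠ 0 := by linarith
    rw [hs2]; unfold sl; rw [hfe]; field_simp; ring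
  have k3 : y e.2 = y e'.1 + s3 * (x e.2 - x e'.1) := by
    have : x e.2 - x e'.1 ≠ 0 := by linarith
    rw [hs3]; unfold sl; rw [← heq]; field_simp; ring
  rw [← hs1, ← hs2] at hsl
  rw [← hs1, ← hs3] at hs
  have hxb : ht x y f.1 f.2 (x e.2) < ht x y e'.1 e'.2 (x e.2) := by
    rw [hfe, h2, h3, ← k3, k1]
    have : s2 * (x e.2 - x e.1) < s1 * (x e.2 - x e.1) :=
      mul_lt_mul_of_pos_right hsl (by linarith)
    linarith
  have d1 : f.1 ≠ e'.1 := by rw [hfe]; exact hne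
  have d2 : f.1 ≠ e'.2 := by
    rw [hfe, ← heq]; intro h'; rw [h'] at hab; exact lt_irrefl _ hab
  have d3 : f.2 ≠ e'.1 := by
    intro h'; rw [← h'] at ha'b; linarith
  have d4 : f.2 ≠ e'.2 := by
    rw [← heq]; intro h'; rw [h'] at hlt; exact lt_irrefl _ hlt
  have key : ∀ s, x e.1 ≤ s → s ≤ x f.2 → x e'.1 ≤ s → s ≤ x e.2 →
      ht x y e'.1 e'.2 s < ht x y f.1 f.2 s → False := by
    intro s q1 q2 q3 q4 q5
    refine no_sign_change h hf he' d1 d2 d3 d4 (s := s) (t := x e.2) (by rw [hfe]; exact q1) q2 q3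
      (by rw [← heq]; exact q4) (by rw [hfe]; exact hab.le) hlt.le ha'b.le (by rw [← heq]) q5 hxb
  rcases lt_trichotomy (x e.1) (x e'.1) with hx | hx | hx
  · have hy1 : y e'.1 < ht x y e.1 e.2 (x e'.1) := by
      rw [h1]
      have : s1 * (x e.2 - x e'.1) < s3 * (x e.2 - x e'.1) :=
        mul_lt_mul_of_pos_right hs (by linarith)
      nlinarith
    rcases lt_trichotomy (ht x y e.1 f.2 (x e'.1)) (y e'.1) with hy | hy | hy
    · exact hW e'.1 ⟨ha'V, hx, ha'b, by linarith, hy, hy1⟩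
    · rw [h2] at hy
      refine h.hcol e.1 haV e'.1 ha'V f.2 hcV hne (Ne.symm d3) (by rw [← hfe]; intro h'; rw [h', ] at hfe; rw [← hfe] at hac; exact lt_irrefl _ hac) ?_
      rw [← hy, k2]
      ring
    · refine key (x e'.1) hx.le (by linarith) le_rfl ha'b.le ?_
      rw [hfe, h3]
      simpa using hy
  · exact h.hx e.1 haV e'.1 ha'V hne hx
  · refine key (x e.1) le_rfl (by linarith) hx.le hab.le ?_
    rw [hfe, h2, h3]
    have : s1 * (x e.2 - x e.1) < s3 * (x e.2 - x e.1) :=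
      mul_lt_mul_of_pos_right hs (by linarith)
    nlinarith

/-- charging, type 1: the upper edge ends first and nothing is in the triangle -/
theorem gap_left {ι : Type*} {V : Finset ι} {x y : ι → ℝ} {E : Finset (ι × ι)} (h : PG V x y E)
    {e f e' f' : ι × ι} (hg : Gap x y E e f) (hg' : Gap x y E e' f')
    (hW : ∀ w, ¬ InW V x y e f w) (hW' : ∀ w, ¬ InW V x y e' f' w)
    (hlt : x e.2 < x f.2) (hlt' : x e'.2 < x f'.2) (heq : e.2 = e'.2) : e = e' := by
  by_contra hne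
  have hne1 : e.1 ≠ e'.1 := fun h' => hne (Prod.ext h' heq)
  obtain ⟨he, hf, hfe, hsl, -⟩ := hg
  obtain ⟨he', hf', hfe', hsl', -⟩ := hg'
  rcases lt_trichotomy (sl x y e) (sl x y e') with hs | hs | hs
  · exact gap_left_aux h he hf hfe hsl he' hW hlt heq hne1 hs
  · obtain ⟨haV, hbV, hab⟩ := h.hE e he
    obtain ⟨ha'V, -, ha'b⟩ := h.hE e' he'
    rw [← heq] at ha'b
    refine h.hcol e.1 haV e'.1 ha'V e.2 hbV hne1
      (fun h' => by rw [← h'] at ha'b; exact lt_irrefl _ ha'b)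
      (fun h' => by rw [← h'] at hab; exact lt_irrefl _ hab) ?_
    unfold sl at hs
    rw [← heq] at hs
    have q1 : x e.2 - x e.1 ≠ 0 := by linarith
    have q2 : x e.2 - x e'.1 ≠ 0 := by linarith
    rw [div_eq_div_iff q1 q2] at hs
    linarith
  · exact gap_left_aux h he' hf' hfe' hsl' he hW' hlt' heq.symm (Ne.symm hne1) hs

theorem ht_left {ι : Type*} (x y : ι → ℝ) (a b : ι) : ht x y a b (x a) = y a := by
  unfold ht; ring

theorem ht_right {ι : Type*} (x y : ι → ℝ) (a b : ι) (hab : x a < x b) : ht x y a b (x b) = y b := by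
  unfold ht
  have : x b - x a ≠ 0 := by linarith [sub_pos.mpr hab]
  field_simp
  ring

/-- form through the right endpoint -/
theorem ht_right' {ι : Type*} (x y : ι → ℝ) (a b : ι) (hab : x a < x b) (t : ℝ) :
    ht x y a b t = y b + (y b - y a) / (x b - x a) * (t - x b) := by
  unfold ht
  have : x b - x a ≠ 0 := by linarith [sub_pos.mpr hab]
  field_simp
  ring

theorem gap_right_aux {ι : Type*} {V : Finset ι} {x y : ι → ℝ} {E : Finset (ι × ι)} (h : PG V x y E)
    {e f f' : ι × ι} (hg : Gap x y E e f) (hf' : f' ∈ E)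
    (hW : ∀ w, ¬ InW V x y e f w)
    (hlt : x f.2 < x e.2) (heq : f.2 = f'.2) (hne : e.1 ≠ f'.1)
    (hsl : sl x y f' < sl x y f) : False := by
  obtain ⟨he, hf, hfe, hsfe, _⟩ := hg
  obtain ⟨a, b⟩ := e
  obtain ⟨a1, c⟩ := f
  obtain ⟨a', c1⟩ := f'
  simp only at hfe hlt heq hne
  subst hfe
  subst heq
  unfold sl at hsl hsfe
  simp only at hsl hsfe
  obtain ⟨haV, hbV, hab⟩ := h.hE _ he
  obtain ⟨_, hcV, hac⟩ := h.hE _ hf
  obtain ⟨ha'V, _, ha'c⟩ := h.hE _ hf'
  simp only at haV hbV hab hcV hac ha'V ha'c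
  -- height of c below e
  have hc1 : y c < ht x y a1 b (x c) := by
    have h1 := ht_right x y a1 c hac
    unfold ht at h1 ⊢
    have h2 : 0 < x c - x a1 := sub_pos.mpr hac
    nlinarith [mul_lt_mul_of_pos_right hsfe h2]
  have hcf : ht x y a' c (x c) = y c := ht_right x y a' c ha'c
  have habove : ∀ t, t < x c → ht x y a1 c t < ht x y a' c t := by
    intro t ht0
    rw [ht_right' x y a1 c hac, ht_right' x y a' c ha'c]
    have h2 : 0 < x c - t := sub_pos.mpr ht0
    nlinarith [mul_lt_mul_of_pos_right hsl h2]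
  have hca : c ≠ a1 := fun hh => by rw [hh] at hac; exact lt_irrefl _ hac
  have hcb : c ≠ b := fun hh => by rw [hh] at hlt; exact lt_irrefl _ hlt
  have hxne : x a1 ≠ x a' := h.hx _ haV _ ha'V hne
  have ha'b : a' ≠ b := fun hh => by rw [hh] at ha'c; linarith
  rcases lt_or_gt_of_ne hxne with hlt1 | hlt1
  · have h1 : ht x y a1 c (x a') < y a' := by
      have := habove (x a') ha'c
      rwa [ht_left] at this
    rcases lt_trichotomy (y a') (ht x y a1 b (x a')) with h2 | h2 | h2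
    · exact hW a' ⟨ha'V, hlt1, by simp only; linarith, ha'c, h1, h2⟩
    · apply h.hcol a1 haV a' ha'V b hbV hne ha'b
      · intro hh; rw [hh] at hab; exact lt_irrefl _ hab
      · rw [h2]
        unfold ht
        have h3 : x b - x a1 ≠ 0 := by linarith [sub_pos.mpr hab]
        field_simp
        ring
    · refine no_sign_change h hf' he (s := x a') (t := x c) (Ne.symm hne) ha'b hca hcb
        le_rfl ha'c.le ?_ ?_ ha'c.le le_rfl ?_ ?_ ?_ ?_
      · exact hlt1.le
      · simp only; linarith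
      · exact hac.le
      · exact hlt.le
      · simp only
        rw [ht_left]
        exact h2
      · simp only
        rw [hcf]
        exact hc1
  · have h1 : y a1 < ht x y a' c (x a1) := by
      have := habove (x a1) hac
      rwa [ht_left] at this
    refine no_sign_change h hf' he (s := x a1) (t := x c) (Ne.symm hne) ha'b hca hcb
      hlt1.le hac.le le_rfl hab.le ha'c.le le_rfl hac.le hlt.le ?_ ?_
    · simp only
      rw [ht_left]
      exact h1
    · simp only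
      rw [hcf]
      exact hc1

/-- charging, type 2: the lower edge ends first and nothing is in the triangle -/
theorem gap_right {ι : Type*} {V : Finset ι} {x y : ι → ℝ} {E : Finset (ι × ι)} (h : PG V x y E)
    {e f e' f' : ι × ι} (hg : Gap x y E e f) (hg' : Gap x y E e' f')
    (hW : ∀ w, ¬ InW V x y e f w) (hW' : ∀ w, ¬ InW V x y e' f' w)
    (hlt : x f.2 < x e.2) (hlt' : x f'.2 < x e'.2) (heq : f.2 = f'.2) : e = e' := by
  have hb1 := hg
  have hb2 := hg'
  obtain ⟨he, hf, hfe, hsfe, hmax⟩ := hb1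
  obtain ⟨he', hf', hfe', hsfe', hmax'⟩ := hb2
  obtain ⟨haV, hbV, hab⟩ := h.hE _ he
  obtain ⟨ha'V, hb'V, hab'⟩ := h.hE _ he'
  obtain ⟨_, hcV, hac⟩ := h.hE _ hf
  obtain ⟨_, hcV', hac'⟩ := h.hE _ hf'
  have haa : e.1 = e'.1 := by
    by_contra hne
    rcases lt_trichotomy (sl x y f') (sl x y f) with h1 | h1 | h1
    · exact gap_right_aux h hg hf' hW hlt heq (by rw [hfe']; exact hne) h1
    · unfold sl at h1
      have hn1 : f.1 ≠ f'.1 := by rw [hfe, hfe']; exact hne
      have h3 : x f.2 - x f.1 ≠ 0 := by linarith [sub_pos.mpr hac]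
      have h4 : x f'.2 - x f'.1 ≠ 0 := by linarith [sub_pos.mpr hac']
      apply h.hcol f.1 (h.hE _ hf).1 f'.1 (h.hE _ hf').1 f.2 hcV hn1
      · intro hh; rw [heq] at hh; rw [hh] at hac'; exact lt_irrefl _ hac'
      · intro hh; rw [hh] at hac; exact lt_irrefl _ hac
      · rw [← heq] at h1 h4
        rw [div_eq_div_iff h4 h3] at h1
        linear_combination h1
    · exact gap_right_aux h hg' hf hW' hlt' heq.symm (by rw [hfe]; exact Ne.symm hne) h1
  have hff : f = f' := Prod.ext (by rw [hfe, hfe', haa]) heq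
  rcases lt_trichotomy (sl x y e) (sl x y e') with h1 | h1 | h1
  · have h2 := hmax' e he haa h1
    rw [← hff] at h2
    exact absurd hsfe (not_lt.mpr h2)
  · refine Prod.ext haa ?_
    by_contra hne2
    unfold sl at h1
    have h3 : x e.2 - x e.1 ≠ 0 := by linarith [sub_pos.mpr hab]
    have h4 : x e'.2 - x e'.1 ≠ 0 := by linarith [sub_pos.mpr hab']
    apply h.hcol e.1 haV e.2 hbV e'.2 hb'V
    · intro hh; rw [hh] at hab; exact lt_irrefl _ hab
    · exact hne2
    · intro hh; rw [haa] at hh; rw [hh] at hab'; exact lt_irrefl _ hab'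
    · rw [div_eq_div_iff h3 h4, ← haa] at h1
      linear_combination -h1
  · have h2 := hmax e' he' haa.symm h1
    rw [hff] at h2
    exact absurd hsfe' (not_lt.mpr h2)

theorem gi_left {ι : Type*} (x y : ι → ℝ) (a b : ι) : ht x y a b (x a) = y a := by
  unfold ht; ring

theorem gi_right {ι : Type*} (x y : ι → ℝ) (a b : ι) (h : x a < x b) : ht x y a b (x b) = y b := by
  unfold ht
  have : x b - x a ≠ 0 := by linarith
  field_simp
  ring

theorem gi_aff {ι : Type*} (x y : ι → ℝ) (a b : ι) (r s t : ℝ) :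
    ht x y a b s * (t - r) = ht x y a b r * (t - s) + ht x y a b t * (s - r) := by
  unfold ht; ring

theorem gi_col {ι : Type*} {V : Finset ι} {x y : ι → ℝ} {E : Finset (ι × ι)} (h : PG V x y E)
    {a b c : ι} (ha : a ∈ V) (hb : b ∈ V) (hc : c ∈ V) (hab : x a < x b) (hac : a ≠ c) (hbc : b ≠ c) :
    y c ≠ ht x y a b (x c) := by
  intro he
  have hab' : a ≠ b := fun h0 => by rw [h0] at hab; exact lt_irrefl _ hab
  apply h.hcol a ha b hb c hc hab' hbc hac
  have h1 : x b - x a ≠ 0 := by linarith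
  unfold ht at he
  rw [he]
  field_simp
  ring

theorem gi_aux {ι : Type*} {V : Finset ι} {x y : ι → ℝ} {E : Finset (ι × ι)} (h : PG V x y E)
    {e f e' f' : ι × ι} (hg : Gap x y E e f) (hg' : Gap x y E e' f') {w : ι}
    (hw : InW V x y e f w) (hw' : InW V x y e' f' w)
    (hmin : ∀ v, InW V x y e f v → x w ≤ x v) (hlt : x e.1 < x e'.1) : False := by
  obtain ⟨heE, hfE, hfe, hsl, hgap⟩ := hg
  obtain ⟨heE', hfE', hfe', hsl', hgap'⟩ := hg'
  obtain ⟨hwV, hw1, hw2, hw3, hw4, hw5⟩ := hw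
  obtain ⟨_, hw1', hw2', hw3', hw4', hw5'⟩ := hw'
  obtain ⟨haV, hbV, hab⟩ := h.hE e heE
  obtain ⟨_, hcV, hac⟩ := h.hE f hfE
  obtain ⟨haV', hbV', hab'⟩ := h.hE e' heE'
  obtain ⟨_, hcV', hac'⟩ := h.hE f' hfE'
  rw [hfe] at hac
  rw [hfe'] at hac'
  -- a' is not in the region
  have hne : ∀ u v : ι, x u < x v → u ≠ v := fun u v huv h0 => by
    rw [h0] at huv; exact lt_irrefl _ huv
  have hnot : ¬ InW V x y e f e'.1 := by
    intro hin
    have := hmin _ hin
    linarith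
  have hcases : y e'.1 ≤ ht x y e.1 f.2 (x e'.1) ∨ ht x y e.1 e.2 (x e'.1) ≤ y e'.1 := by
    by_contra hcon
    push Not at hcon
    exact hnot ⟨haV', hlt, by linarith, by linarith, hcon.1, hcon.2⟩
  rcases hcases with hc | hc
  · have hstr : y e'.1 < ht x y e.1 f.2 (x e'.1) :=
      lt_of_le_of_ne hc (gi_col h haV hcV haV' hac (hne _ _ hlt) (hne _ _ (by linarith : x e'.1 < x f.2)).symm)
    by_cases hcb : f.2 = e'.2
    · -- common right endpoint
      have h1 := gi_aff x y e.1 f.2 (x e'.1) (x w) (x f.2)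
      have h2 := gi_aff x y e'.1 e'.2 (x e'.1) (x w) (x f.2)
      rw [gi_right x y e.1 f.2 hac] at h1
      rw [gi_left] at h2
      have h3 : ht x y e'.1 e'.2 (x f.2) = y f.2 := by
        rw [hcb]; exact gi_right x y e'.1 e'.2 hab'
      rw [h3] at h2
      have h4 : 0 < (ht x y e'.1 e'.2 (x w) - ht x y e.1 f.2 (x w)) * (x f.2 - x e'.1) :=
        mul_pos (by linarith) (by linarith)
      have h5 : 0 < (ht x y e.1 f.2 (x e'.1) - y e'.1) * (x f.2 - x w) :=
        mul_pos (by linarith) (by linarith)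
      nlinarith
    · have hne1 : f.1 ≠ e'.1 := by rw [hfe]; exact hne _ _ hlt
      have hne2 : f.1 ≠ e'.2 := by rw [hfe]; exact hne _ _ (by linarith)
      have hne3 : f.2 ≠ e'.1 := (hne _ _ (by linarith : x e'.1 < x f.2)).symm
      refine no_sign_change h hfE heE' hne1 hne2 hne3 hcb (s := x e'.1) (t := x w) ?_ ?_ ?_ ?_ ?_ ?_ ?_ ?_ ?_ ?_
      · rw [hfe]; linarith
      · linarith
      · linarith
      · linarith
      · rw [hfe]; linarith
      · linarith
      · linarith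
      · linarith
      · rw [gi_left, hfe]; exact hstr
      · rw [hfe]; linarith
  · have hstr : ht x y e.1 e.2 (x e'.1) < y e'.1 :=
      lt_of_le_of_ne hc (gi_col h haV hbV haV' hab (hne _ _ hlt) (hne _ _ (by linarith : x e'.1 < x e.2)).symm).symm
    by_cases hcb : f'.2 = e.2
    · have h1 := gi_aff x y e.1 e.2 (x e'.1) (x w) (x e.2)
      have h2 := gi_aff x y e'.1 f'.2 (x e'.1) (x w) (x e.2)
      rw [gi_right x y e.1 e.2 hab] at h1
      rw [gi_left] at h2
      have h3 : ht x y e'.1 f'.2 (x e.2) = y e.2 := by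
        rw [← hcb]; exact gi_right x y e'.1 f'.2 hac'
      rw [h3] at h2
      have h4 : 0 < (ht x y e.1 e.2 (x w) - ht x y e'.1 f'.2 (x w)) * (x e.2 - x e'.1) :=
        mul_pos (by linarith) (by linarith)
      have h5 : 0 < (y e'.1 - ht x y e.1 e.2 (x e'.1)) * (x e.2 - x w) :=
        mul_pos (by linarith) (by linarith)
      nlinarith
    · have hne1 : f'.1 ≠ e.1 := by rw [hfe']; exact (hne _ _ hlt).symm
      have hne2 : f'.1 ≠ e.2 := by rw [hfe']; exact hne _ _ (by linarith)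
      have hne3 : f'.2 ≠ e.1 := (hne _ _ (by linarith : x e.1 < x f'.2)).symm
      refine no_sign_change h hfE' heE hne1 hne2 hne3 hcb (s := x e'.1) (t := x w) ?_ ?_ ?_ ?_ ?_ ?_ ?_ ?_ ?_ ?_
      · rw [hfe']
      · linarith
      · linarith
      · linarith
      · rw [hfe']; linarith
      · linarith
      · linarith
      · linarith
      · rw [hfe', gi_left]; exact hstr
      · rw [hfe']; linarith

theorem gi_same {ι : Type*} {V : Finset ι} {x y : ι → ℝ} {E : Finset (ι × ι)} (h : PG V x y E)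
    {e f e' f' : ι × ι} (hg : Gap x y E e f) (hg' : Gap x y E e' f') {w : ι}
    (hw : InW V x y e f w) (hw' : InW V x y e' f' w) (h1 : e.1 = e'.1)
    (hsl : sl x y e < sl x y e') : False := by
  have h2 : sl x y e ≤ sl x y f' := hg'.2.2.2.2 e hg.1 h1 hsl
  have h3 := hw'.2.2.2.2.1
  have h4 := hw.2.2.2.2.2
  have h5 := hw.2.1
  have h6 : ht x y e'.1 f'.2 (x w) = y e'.1 + sl x y f' * (x w - x e'.1) := by
    unfold ht sl
    rw [hg'.2.2.1]
  have h7 : ht x y e.1 e.2 (x w) = y e.1 + sl x y e * (x w - x e.1) := rfl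
  rw [h6, ← h1] at h3
  rw [h7] at h4
  have h8 : sl x y f' * (x w - x e.1) < sl x y e * (x w - x e.1) := by linarith
  have h9 := lt_of_mul_lt_mul_right h8 (by linarith)
  linarith

/-- charging, type 3: the leftmost vertex in the triangle -/
theorem gap_inner {ι : Type*} {V : Finset ι} {x y : ι → ℝ} {E : Finset (ι × ι)} (h : PG V x y E)
    {e f e' f' : ι × ι} (hg : Gap x y E e f) (hg' : Gap x y E e' f') {w : ι}
    (hw : InW V x y e f w) (hw' : InW V x y e' f' w)
    (hmin : ∀ v, InW V x y e f v → x w ≤ x v) (hmin' : ∀ v, InW V x y e' f' v → x w ≤ x v) : e = e' := by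
  by_contra hee
  have haV := (h.hE e hg.1).1
  have haV' := (h.hE e' hg'.1).1
  have hbV := (h.hE e hg.1).2.1
  have hbV' := (h.hE e' hg'.1).2.1
  have hab := (h.hE e hg.1).2.2
  have hab' := (h.hE e' hg'.1).2.2
  by_cases h1 : e.1 = e'.1
  · have h2 : e.2 ≠ e'.2 := fun h2 => hee (Prod.ext h1 h2)
    rcases lt_trichotomy (sl x y e) (sl x y e') with h3 | h3 | h3
    · exact gi_same h hg hg' hw hw' h1 h3
    · have h4 : e.1 ≠ e'.2 := by
        intro h0
        rw [← h1, ← h0] at hab'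
        exact lt_irrefl _ hab'
      apply gi_col h haV hbV hbV' hab h4 h2
      have h5 : ht x y e.1 e.2 (x e'.2) = ht x y e'.1 e'.2 (x e'.2) := by
        have h6 : ∀ g : ι × ι, ∀ t : ℝ, ht x y g.1 g.2 t = y g.1 + sl x y g * (t - x g.1) := fun g t => rfl
        rw [h6, h6, h3, h1]
      rw [h5, gi_right x y e'.1 e'.2 hab']
    · exact gi_same h hg' hg hw' hw h1.symm h3
  · rcases lt_or_gt_of_ne (h.hx _ haV _ haV' h1) with h2 | h2
    · exact gi_aux h hg hg' hw hw' hmin h2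
    · exact gi_aux h hg' hg hw' hw hmin' h2

/-- a non-crossing geometric graph in general position has at most `4 n` edges -/
theorem edges_le {ι : Type*} [DecidableEq ι] {V : Finset ι} {x y : ι → ℝ} {E : Finset (ι × ι)}
    (h : PG V x y E) : E.card ≤ 4 * V.card := by
  classical
  have hnl : ∀ e : ι × ι, ∃ f : ι × ι, e ∈ E → (¬ ∀ g ∈ E, g.1 = e.1 → ¬ sl x y g < sl x y e) →
      Gap x y E e f := by
    intro e
    by_cases he : e ∈ E
    · by_cases hl : (¬ ∀ g ∈ E, g.1 = e.1 → ¬ sl x y g < sl x y e)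
      · have hne : (E.filter (fun g => g.1 = e.1 ∧ sl x y g < sl x y e)).Nonempty := by
          push Not at hl
          obtain ⟨g, hg, hg1, hg2⟩ := hl
          exact ⟨g, Finset.mem_filter.2 ⟨hg, hg1, hg2⟩⟩
        obtain ⟨f, hf, hfmax⟩ := Finset.exists_max_image _ (fun g => sl x y g) hne
        rw [Finset.mem_filter] at hf
        refine ⟨f, fun _ _ => ⟨he, hf.1, hf.2.1, hf.2.2, ?_⟩⟩
        intro g hg hg1 hg2
        exact hfmax g (Finset.mem_filter.2 ⟨hg, hg1, hg2⟩)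
      · exact ⟨e, fun _ h2 => absurd h2 hl⟩
    · exact ⟨e, fun h1 => absurd h1 he⟩
  choose nl hnl using hnl
  have hm : ∀ e : ι × ι, ∃ w : Option ι, (∃ w', InW V x y e (nl e) w') →
      ∃ w', w = some w' ∧ InW V x y e (nl e) w' ∧ ∀ v, InW V x y e (nl e) v → x w' ≤ x v := by
    intro e
    by_cases hex : ∃ w', InW V x y e (nl e) w'
    · have hne : (V.filter (fun w => InW V x y e (nl e) w)).Nonempty := by
        obtain ⟨w', hw'⟩ := hex
        exact ⟨w', Finset.mem_filter.2 ⟨hw'.1, hw'⟩⟩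
      obtain ⟨w', hw', hmin⟩ := Finset.exists_min_image _ x hne
      rw [Finset.mem_filter] at hw'
      refine ⟨some w', fun _ => ⟨w', rfl, hw'.2, ?_⟩⟩
      intro v hv
      exact hmin v (Finset.mem_filter.2 ⟨hv.1, hv⟩)
    · exact ⟨none, fun h1 => absurd h1 hex⟩
  choose m hm using hm
  set E0 := E.filter (fun e => ∀ g ∈ E, g.1 = e.1 → ¬ sl x y g < sl x y e) with hE0
  set E1 := E.filter (fun e => (¬ ∀ g ∈ E, g.1 = e.1 → ¬ sl x y g < sl x y e) ∧
    (∀ w, ¬ InW V x y e (nl e) w) ∧ x e.2 < x (nl e).2) with hE1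
  set E2 := E.filter (fun e => (¬ ∀ g ∈ E, g.1 = e.1 → ¬ sl x y g < sl x y e) ∧
    (∀ w, ¬ InW V x y e (nl e) w) ∧ x (nl e).2 < x e.2) with hE2
  set E3 := E.filter (fun e => (¬ ∀ g ∈ E, g.1 = e.1 → ¬ sl x y g < sl x y e) ∧
    (∃ w, InW V x y e (nl e) w)) with hE3
  have hsub : E ⊆ E0 ∪ (E1 ∪ (E2 ∪ E3)) := by
    intro e he
    rw [Finset.mem_union, Finset.mem_union, Finset.mem_union]
    by_cases hl : ∀ g ∈ E, g.1 = e.1 → ¬ sl x y g < sl x y e
    · exact Or.inl (Finset.mem_filter.2 ⟨he, hl⟩)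
    · right
      by_cases hw : ∃ w, InW V x y e (nl e) w
      · exact Or.inr (Or.inr (Finset.mem_filter.2 ⟨he, hl, hw⟩))
      · have hw' : ∀ w, ¬ InW V x y e (nl e) w := fun w hw2 => hw ⟨w, hw2⟩
        have hg := hnl e he hl
        have hne2 : e.2 ≠ (nl e).2 := by
          intro heq
          have h1 : nl e = e := Prod.ext hg.2.2.1 heq.symm
          have h2 := hg.2.2.2.1
          rw [h1] at h2
          exact lt_irrefl _ h2
        have hxne := h.hx e.2 (h.hE e he).2.1 (nl e).2 (h.hE _ hg.2.1).2.1 hne2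
        rcases lt_or_gt_of_ne hxne with hlt | hlt
        · exact Or.inl (Finset.mem_filter.2 ⟨he, hl, hw', hlt⟩)
        · exact Or.inr (Or.inl (Finset.mem_filter.2 ⟨he, hl, hw', hlt⟩))
  have c0 : E0.card ≤ V.card := by
    apply Finset.card_le_card_of_injOn (fun e => e.1)
    · intro e he
      exact (h.hE e (Finset.mem_filter.1 he).1).1
    · intro e he e' he' heq
      have he1 := Finset.mem_filter.1 he
      have he2 := Finset.mem_filter.1 he'
      have heq' : e.1 = e'.1 := heq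
      have hs : sl x y e = sl x y e' := by
        have h1 := he1.2 e' he2.1 heq'.symm
        have h2 := he2.2 e he1.1 heq'
        exact le_antisymm (not_lt.1 h1) (not_lt.1 h2)
      by_contra hne
      have h2 : e.2 ≠ e'.2 := fun h3 => hne (Prod.ext heq' h3)
      have hVe := h.hE e he1.1
      have hVe' := h.hE e' he2.1
      have h3 : e.1 ≠ e.2 := by
        intro h4
        have := hVe.2.2
        rw [h4] at this
        exact lt_irrefl _ this
      have h4 : e.1 ≠ e'.2 := by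
        intro h5
        have := hVe'.2.2
        rw [← heq', h5] at this
        exact lt_irrefl _ this
      have h5 := h.hcol e.1 hVe.1 e.2 hVe.2.1 e'.2 hVe'.2.1 h3 h2 h4
      apply h5
      have hx1 : x e.2 - x e.1 ≠ 0 := by
        have := hVe.2.2
        intro h6
        linarith
      have hx2 : x e'.2 - x e.1 ≠ 0 := by
        have := hVe'.2.2
        rw [← heq'] at this
        intro h6
        linarith
      unfold sl at hs
      rw [← heq', div_eq_div_iff hx1 hx2] at hs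
      linarith
  have c1 : E1.card ≤ V.card := by
    apply Finset.card_le_card_of_injOn (fun e => e.2)
    · intro e he
      exact (h.hE e (Finset.mem_filter.1 he).1).2.1
    · intro e he e' he' heq
      obtain ⟨he1, hl, hw, hlt⟩ := Finset.mem_filter.1 he
      obtain ⟨he1', hl', hw', hlt'⟩ := Finset.mem_filter.1 he'
      exact gap_left h (hnl e he1 hl) (hnl e' he1' hl') hw hw' hlt hlt' heq
  have c2 : E2.card ≤ V.card := by
    apply Finset.card_le_card_of_injOn (fun e => (nl e).2)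
    · intro e he
      obtain ⟨he1, hl, hw, hlt⟩ := Finset.mem_filter.1 he
      exact (h.hE _ (hnl e he1 hl).2.1).2.1
    · intro e he e' he' heq
      obtain ⟨he1, hl, hw, hlt⟩ := Finset.mem_filter.1 he
      obtain ⟨he1', hl', hw', hlt'⟩ := Finset.mem_filter.1 he'
      exact gap_right h (hnl e he1 hl) (hnl e' he1' hl') hw hw' hlt hlt' heq
  have c3 : E3.card ≤ V.card := by
    have h1 : E3.card ≤ (V.image some).card := by
      apply Finset.card_le_card_of_injOn m
      · intro e he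
        obtain ⟨he1, hl, hw⟩ := Finset.mem_filter.1 he
        obtain ⟨w', hw1, hw2, hw3⟩ := hm e hw
        show m e ∈ ((V.image some : Finset (Option ι)) : Set (Option ι))
        rw [hw1]
        exact Finset.mem_coe.2 (Finset.mem_image_of_mem _ hw2.1)
      · intro e he e' he' heq
        obtain ⟨he1, hl, hw⟩ := Finset.mem_filter.1 he
        obtain ⟨he1', hl', hw'⟩ := Finset.mem_filter.1 he'
        obtain ⟨w1, ha1, ha2, ha3⟩ := hm e hw
        obtain ⟨w2, hb1, hb2, hb3⟩ := hm e' hw'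
        have heq2 : w1 = w2 := by
          have : some w1 = some w2 := by rw [← ha1, ← hb1]; exact heq
          exact Option.some_injective _ this
        rw [← heq2] at hb2 hb3
        exact gap_inner h (hnl e he1 hl) (hnl e' he1' hl') ha2 hb2 ha3 hb3
    exact le_trans h1 Finset.card_image_le
  calc E.card ≤ (E0 ∪ (E1 ∪ (E2 ∪ E3))).card := Finset.card_le_card hsub
    _ ≤ E0.card + (E1 ∪ (E2 ∪ E3)).card := Finset.card_union_le _ _
    _ ≤ E0.card + (E1.card + (E2 ∪ E3).card) := by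
        have := Finset.card_union_le E1 (E2 ∪ E3)
        omega
    _ ≤ E0.card + (E1.card + (E2.card + E3.card)) := by
        have := Finset.card_union_le E2 E3
        omega
    _ ≤ 4 * V.card := by omega

/-- a graph all of whose induced subgraphs on `U ⊆ D` have at most `4 |U|` edges
has an independent set containing one ninth of the vertices -/
theorem indep_of_sparse {ι : Type*} [DecidableEq ι] (D : Finset ι) (G : ι → ι → Prop)
    (hsymm : ∀ i j, G i j → G j i) (hirr : ∀ i, ¬ G i i)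
    (hsparse : ∀ U ⊆ D, ∀ E : Finset (Finset ι), (∀ e ∈ E, ∃ i ∈ U, ∃ j ∈ U, G i j ∧ e = {i, j}) →
      E.card ≤ 4 * U.card) :
    ∃ S ⊆ D, D.card ≤ 9 * S.card ∧ ∀ i ∈ S, ∀ j ∈ S, ¬ G i j := by
  classical
  have key : ∀ n : ℕ, ∀ U ⊆ D, U.card = n →
      ∃ S ⊆ U, U.card ≤ 9 * S.card ∧ ∀ i ∈ S, ∀ j ∈ S, ¬ G i j := by
    intro n
    induction n using Nat.strong_induction_on with
    | _ n ih =>
    intro U hU hn
    rcases U.eq_empty_or_nonempty with rfl | hne
    · exact ⟨∅, by simp, by simp, by simp⟩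
    have hv : ∃ v ∈ U, (U.filter (fun j => G v j)).card ≤ 8 := by
      by_contra hcon
      push Not at hcon
      set Q : Finset (ι × ι) := (U ×ˢ U).filter (fun p => G p.1 p.2) with hQ
      have hmemQ : ∀ p, p ∈ Q ↔ (p.1 ∈ U ∧ p.2 ∈ U) ∧ G p.1 p.2 := by
        intro p
        rw [hQ, Finset.mem_filter, Finset.mem_product]
      have hQ1 : 9 * U.card ≤ Q.card := by
        rw [Finset.card_eq_sum_card_fiberwise (f := Prod.fst) (t := U)
          (fun p hp => ((hmemQ p).1 (by simpa using hp)).1.1)]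
        calc 9 * U.card = ∑ i ∈ U, 9 := by simp [mul_comm]
          _ ≤ _ := by
            apply Finset.sum_le_sum
            intro i hi
            refine le_trans (Nat.succ_le_of_lt (hcon i hi)) ?_
            apply Finset.card_le_card_of_injOn (fun j => (i, j))
            · intro j hj
              have hj' := Finset.mem_filter.1 (Finset.mem_coe.1 hj)
              rw [Finset.mem_coe, Finset.mem_filter]
              exact ⟨(hmemQ _).2 ⟨⟨hi, hj'.1⟩, hj'.2⟩, rfl⟩
            · intro a _ b _ h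
              exact (Prod.ext_iff.1 h).2
      set E := Q.image (fun p => ({p.1, p.2} : Finset ι)) with hEdef
      have hE : E.card ≤ 4 * U.card := by
        apply hsparse U hU E
        intro e he
        obtain ⟨p, hp, rfl⟩ := Finset.mem_image.1 he
        have hp' := (hmemQ p).1 hp
        exact ⟨p.1, hp'.1.1, p.2, hp'.1.2, hp'.2, rfl⟩
      have hQ2 : Q.card ≤ 2 * E.card := by
        apply Finset.card_le_mul_card_image
        intro e he
        obtain ⟨p, hp, rfl⟩ := Finset.mem_image.1 he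
        have hp' := (hmemQ p).1 hp
        refine le_trans (Finset.card_le_card (t := {p, p.swap}) ?_) Finset.card_le_two
        intro q hq
        obtain ⟨hq1, hq2⟩ := Finset.mem_filter.1 hq
        have hne : q.1 ≠ q.2 := by
          intro h
          have := ((hmemQ q).1 hq1).2
          rw [h] at this
          exact hirr _ this
        have h1 : q.1 = p.1 ∨ q.1 = p.2 := by
          have : q.1 ∈ ({p.1, p.2} : Finset ι) := by rw [← hq2]; simp
          simpa using this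
        have h2 : q.2 = p.1 ∨ q.2 = p.2 := by
          have : q.2 ∈ ({p.1, p.2} : Finset ι) := by rw [← hq2]; simp
          simpa using this
        rw [Finset.mem_insert, Finset.mem_singleton]
        rcases h1 with h1 | h1 <;> rcases h2 with h2 | h2
        · exact absurd (h1.trans h2.symm) hne
        · exact Or.inl (Prod.ext h1 h2)
        · exact Or.inr (Prod.ext h1 h2)
        · exact absurd (h1.trans h2.symm) hne
      have := hne.card_pos
      omega
    obtain ⟨v, hvU, hvc⟩ := hv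
    set N := U.filter (fun j => G v j) with hN
    set W := U \ insert v N with hW
    have hWU : W ⊆ U := Finset.sdiff_subset
    have hvW : v ∉ W := by
      rw [hW, Finset.mem_sdiff]
      intro h
      exact h.2 (Finset.mem_insert_self _ _)
    have hWlt : W.card < n := by
      rw [← hn]
      exact Finset.card_lt_card ⟨hWU, fun h => hvW (h hvU)⟩
    have hWge : U.card ≤ W.card + 9 := by
      have h1 : U.card ≤ (W ∪ insert v N).card := by
        apply Finset.card_le_card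
        intro x hx
        by_cases h : x ∈ insert v N
        · exact Finset.mem_union_right _ h
        · exact Finset.mem_union_left _ (Finset.mem_sdiff.2 ⟨hx, h⟩)
      have h2 := Finset.card_union_le W (insert v N)
      have h3 := Finset.card_insert_le v N
      omega
    obtain ⟨S, hSW, hSc, hSi⟩ := ih W.card hWlt W (hWU.trans hU) rfl
    refine ⟨insert v S, ?_, ?_, ?_⟩
    · exact Finset.insert_subset hvU (hSW.trans hWU)
    · rw [Finset.card_insert_of_notMem (fun h => hvW (hSW h))]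
      omega
    · have hvS : ∀ j ∈ S, ¬ G v j := by
        intro j hj h
        have hjW := hSW hj
        rw [hW, Finset.mem_sdiff] at hjW
        exact hjW.2 (Finset.mem_insert_of_mem (Finset.mem_filter.2 ⟨hjW.1, h⟩))
      intro i hi j hj
      rw [Finset.mem_insert] at hi hj
      rcases hi with rfl | hi <;> rcases hj with rfl | hj
      · exact hirr _
      · exact hvS j hj
      · exact fun h => hvS i hi (hsymm _ _ h)
      · exact hSi i hi j hj
  obtain ⟨S, h1, h2, h3⟩ := key D.card D (Finset.Subset.refl D) rfl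
  exact ⟨S, h1, h2, h3⟩

theorem quad_ne (A B C : ℝ) (h : A ≠ 0 ∨ B ≠ 0 ∨ C ≠ 0) :
    ∀ᶠ d in nhdsWithin (0 : ℝ) {0}ᶜ, A + B * d + C * d ^ 2 ≠ 0 := by
  by_cases hA : A = 0
  · by_cases hB : B = 0
    · have hC : C ≠ 0 := by
        rcases h with h | h | h
        · exact absurd hA h
        · exact absurd hB h
        · exact h
      filter_upwards [self_mem_nhdsWithin] with d hd
      rw [hA, hB]
      have : d ≠ 0 := hd
      simp [hC, this]
    · have h1 : ∀ᶠ d in nhds (0 : ℝ), B + C * d ≠ 0 := by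
        have hc : ContinuousAt (fun d : ℝ => B + C * d) 0 := by fun_prop
        apply hc.eventually_ne
        simpa using hB
      filter_upwards [self_mem_nhdsWithin, h1.filter_mono nhdsWithin_le_nhds] with d hd hd2
      have hd' : d ≠ 0 := hd
      have : A + B * d + C * d ^ 2 = d * (B + C * d) := by rw [hA]; ring
      rw [this]
      exact mul_ne_zero hd' hd2
  · have hc : ContinuousAt (fun d : ℝ => A + B * d + C * d ^ 2) 0 := by fun_prop
    have h1 : ∀ᶠ d in nhds (0 : ℝ), A + B * d + C * d ^ 2 ≠ 0 := by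
      apply hc.eventually_ne
      simpa using hA
    exact h1.filter_mono nhdsWithin_le_nhds

/-- perturbation to general position keeping finitely many strict inequalities -/
theorem perturb {ι : Type*} [DecidableEq ι] (U : Finset ι) (x y w : ι → ℝ)
    (E : Finset (Finset ι)) (hE : ∀ e ∈ E, e ⊆ U) (p q : Finset ι → ℝ)
    (h : ∀ e ∈ E, ∀ i ∈ e, ∀ j ∈ U, j ∉ e →
      (p e - x i) ^ 2 + (q e - y i) ^ 2 + w i < (p e - x j) ^ 2 + (q e - y j) ^ 2 + w j) :
    ∃ x' y' : ι → ℝ, (∀ a ∈ U, ∀ b ∈ U, a ≠ b → x' a ≠ x' b) ∧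
    (∀ a ∈ U, ∀ b ∈ U, ∀ c ∈ U, a ≠ b → b ≠ c → a ≠ c →
      (x' b - x' a) * (y' c - y' a) - (x' c - x' a) * (y' b - y' a) ≠ 0) ∧
    (∀ e ∈ E, ∀ i ∈ e, ∀ j ∈ U, j ∉ e →
      (p e - x' i) ^ 2 + (q e - y' i) ^ 2 + w i < (p e - x' j) ^ 2 + (q e - y' j) ^ 2 + w j) := by
  classical
  obtain ⟨k, hk⟩ : ∃ k : ι → ℕ, ∀ a ∈ U, ∀ b ∈ U, a ≠ b → k a ≠ k b := by
    refine ⟨fun a => if h : a ∈ U then (U.equivFin ⟨a, h⟩ : ℕ) else 0, ?_⟩
    intro a ha b hb hab he
    simp only [ha, hb, dif_pos] at he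
    have h2 := U.equivFin.injective (Fin.ext he)
    exact hab (by simpa using h2)
  have hkr : ∀ a ∈ U, ∀ b ∈ U, a ≠ b → ((k a : ℝ) - k b) ≠ 0 := by
    intro a ha b hb hab
    have := hk a ha b hb hab
    rw [sub_ne_zero]
    exact_mod_cast this
  have e1 : ∀ᶠ d in nhdsWithin (0 : ℝ) {0}ᶜ, ∀ a ∈ U, ∀ b ∈ U, a ≠ b →
      x a + d * k a ≠ x b + d * k b := by
    rw [Filter.eventually_all_finset]
    intro a ha
    rw [Filter.eventually_all_finset]
    intro b hb
    by_cases hab : a = b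
    · exact Filter.Eventually.of_forall (fun _ h' => absurd hab h')
    · filter_upwards [quad_ne (x a - x b) ((k a : ℝ) - k b) 0 (Or.inr (Or.inl (hkr a ha b hb hab)))]
        with d hd _ he
      apply hd
      linear_combination he
  have e2 : ∀ᶠ d in nhdsWithin (0 : ℝ) {0}ᶜ, ∀ a ∈ U, ∀ b ∈ U, ∀ c ∈ U, a ≠ b → b ≠ c → a ≠ c →
      ((x b + d * k b) - (x a + d * k a)) * ((y c + d * (k c : ℝ) ^ 2) - (y a + d * (k a : ℝ) ^ 2)) -
      ((x c + d * k c) - (x a + d * k a)) * ((y b + d * (k b : ℝ) ^ 2) - (y a + d * (k a : ℝ) ^ 2))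
        ≠ 0 := by
    rw [Filter.eventually_all_finset]
    intro a ha
    rw [Filter.eventually_all_finset]
    intro b hb
    rw [Filter.eventually_all_finset]
    intro c hc
    by_cases hab : a = b
    · exact Filter.Eventually.of_forall (fun _ h' => absurd hab h')
    by_cases hbc : b = c
    · exact Filter.Eventually.of_forall (fun _ _ h' => absurd hbc h')
    by_cases hac : a = c
    · exact Filter.Eventually.of_forall (fun _ _ _ h' => absurd hac h')
    have hC : ((k b : ℝ) - k a) * ((k c : ℝ) - k a) * ((k c : ℝ) - k b) ≠ 0 :=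
      mul_ne_zero (mul_ne_zero (hkr b hb a ha (Ne.symm hab)) (hkr c hc a ha (Ne.symm hac)))
        (hkr c hc b hb (Ne.symm hbc))
    filter_upwards [quad_ne ((x b - x a) * (y c - y a) - (x c - x a) * (y b - y a))
      (((k b : ℝ) - k a) * (y c - y a) + (x b - x a) * ((k c : ℝ) ^ 2 - (k a : ℝ) ^ 2)
        - ((k c : ℝ) - k a) * (y b - y a) - (x c - x a) * ((k b : ℝ) ^ 2 - (k a : ℝ) ^ 2))
      (((k b : ℝ) - k a) * ((k c : ℝ) - k a) * ((k c : ℝ) - k b)) (Or.inr (Or.inr hC))]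
      with d hd _ _ _ he
    apply hd
    linear_combination he
  have e3 : ∀ᶠ d in nhdsWithin (0 : ℝ) {0}ᶜ, ∀ e ∈ E, ∀ i ∈ e, ∀ j ∈ U, j ∉ e →
      (p e - (x i + d * k i)) ^ 2 + (q e - (y i + d * (k i : ℝ) ^ 2)) ^ 2 + w i <
        (p e - (x j + d * k j)) ^ 2 + (q e - (y j + d * (k j : ℝ) ^ 2)) ^ 2 + w j := by
    rw [Filter.eventually_all_finset]
    intro e he
    rw [Filter.eventually_all_finset]
    intro i hi
    rw [Filter.eventually_all_finset]
    intro j hj
    by_cases hje : j ∈ e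
    · exact Filter.Eventually.of_forall (fun _ h' => absurd hje h')
    have h1 : ContinuousAt (fun d : ℝ =>
      (p e - (x i + d * k i)) ^ 2 + (q e - (y i + d * (k i : ℝ) ^ 2)) ^ 2 + w i) 0 := by fun_prop
    have h2 : ContinuousAt (fun d : ℝ =>
      (p e - (x j + d * k j)) ^ 2 + (q e - (y j + d * (k j : ℝ) ^ 2)) ^ 2 + w j) 0 := by fun_prop
    have h3 := h1.eventually_lt h2 (by simpa using h e he i hi j hj hje)
    filter_upwards [h3.filter_mono nhdsWithin_le_nhds] with d hd _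
    exact hd
  obtain ⟨d, hd1, hd2, hd3⟩ := (e1.and (e2.and e3)).exists
  exact ⟨fun a => x a + d * k a, fun a => y a + d * (k a : ℝ) ^ 2, hd1, hd2, hd3⟩

theorem no_cross_conv (s s' A B C D : ℝ) (h0 : 0 ≤ s) (h1 : s ≤ 1) (h0' : 0 ≤ s') (h1' : s' ≤ 1)
    (hAC : A < C) (hAD : A < D) (hBC : B < C) (hBD : B < D) :
    (1 - s) * A + s * B < (1 - s') * C + s' * D := by
  have e1 : (1 - s) * A + s * B ≤ max A B := by
    have ha := mul_le_mul_of_nonneg_left (le_max_left A B) (sub_nonneg.2 h1)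
    have hb := mul_le_mul_of_nonneg_left (le_max_right A B) h0
    linarith
  have e2 : min C D ≤ (1 - s') * C + s' * D := by
    have ha := mul_le_mul_of_nonneg_left (min_le_left C D) (sub_nonneg.2 h1')
    have hb := mul_le_mul_of_nonneg_left (min_le_right C D) h0'
    linarith
  have e3 : max A B < min C D := max_lt (lt_min hAC hAD) (lt_min hBC hBD)
  linarith

/-- two disjoint pairs with strict power witnesses do not cross -/
theorem no_cross {ι : Type*} (x y w : ι → ℝ) (a b c d : ι) (p q p' q' : ℝ)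
    (h1 : ∀ i, (i = a ∨ i = b) → ∀ j, (j = c ∨ j = d) →
      (p - x i) ^ 2 + (q - y i) ^ 2 + w i < (p - x j) ^ 2 + (q - y j) ^ 2 + w j)
    (h2 : ∀ i, (i = c ∨ i = d) → ∀ j, (j = a ∨ j = b) →
      (p' - x i) ^ 2 + (q' - y i) ^ 2 + w i < (p' - x j) ^ 2 + (q' - y j) ^ 2 + w j)
    (hab : x a < x b) (hcd : x c < x d)
    (t : ℝ) (h3 : x a ≤ t) (h4 : t ≤ x b) (h5 : x c ≤ t) (h6 : t ≤ x d) :
    ht x y a b t ≠ ht x y c d t := by
  intro heq
  have hba : 0 < x b - x a := sub_pos.2 hab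
  have hdc : 0 < x d - x c := sub_pos.2 hcd
  obtain ⟨s, hs⟩ : ∃ s, s = (t - x a) / (x b - x a) := ⟨_, rfl⟩
  obtain ⟨s', hs'⟩ : ∃ s', s' = (t - x c) / (x d - x c) := ⟨_, rfl⟩
  have s0 : 0 ≤ s := by rw [hs]; exact div_nonneg (sub_nonneg.2 h3) hba.le
  have s1 : s ≤ 1 := by rw [hs]; exact (div_le_one hba).2 (by linarith)
  have s0' : 0 ≤ s' := by rw [hs']; exact div_nonneg (sub_nonneg.2 h5) hdc.le
  have s1' : s' ≤ 1 := by rw [hs']; exact (div_le_one hdc).2 (by linarith)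
  have ex : s * (x b - x a) = t - x a := by rw [hs]; exact div_mul_cancel₀ _ hba.ne'
  have ex' : s' * (x d - x c) = t - x c := by rw [hs']; exact div_mul_cancel₀ _ hdc.ne'
  have ey : ht x y a b t = (1 - s) * y a + s * y b := by
    unfold ht
    rw [← ex]
    field_simp
    ring
  have ey' : ht x y c d t = (1 - s') * y c + s' * y d := by
    unfold ht
    rw [← ex']
    field_simp
    ring
  rw [ey, ey'] at heq
  have exx : (1 - s) * x a + s * x b = (1 - s') * x c + s' * x d := by linarith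
  have k1 := no_cross_conv s s' _ _ _ _ s0 s1 s0' s1' (h1 a (Or.inl rfl) c (Or.inl rfl))
    (h1 a (Or.inl rfl) d (Or.inr rfl)) (h1 b (Or.inr rfl) c (Or.inl rfl)) (h1 b (Or.inr rfl) d (Or.inr rfl))
  have k2 := no_cross_conv s' s _ _ _ _ s0' s1' s0 s1 (h2 c (Or.inl rfl) a (Or.inl rfl))
    (h2 c (Or.inl rfl) b (Or.inr rfl)) (h2 d (Or.inr rfl) a (Or.inl rfl)) (h2 d (Or.inr rfl) b (Or.inr rfl))
  have key : ((1 - s) * ((p - x a) ^ 2 + (q - y a) ^ 2 + w a) + s * ((p - x b) ^ 2 + (q - y b) ^ 2 + w b))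
      - ((1 - s) * ((p' - x a) ^ 2 + (q' - y a) ^ 2 + w a) + s * ((p' - x b) ^ 2 + (q' - y b) ^ 2 + w b))
      = ((1 - s') * ((p - x c) ^ 2 + (q - y c) ^ 2 + w c) + s' * ((p - x d) ^ 2 + (q - y d) ^ 2 + w d))
      - ((1 - s') * ((p' - x c) ^ 2 + (q' - y c) ^ 2 + w c) + s' * ((p' - x d) ^ 2 + (q' - y d) ^ 2 + w d)) := by
    linear_combination (-2 * (p - p')) * exx + (-2 * (q - q')) * heq
  linarith

/-- pairs with strict power witnesses: at most `4 n` of them -/
theorem sparse_pairs {ι : Type*} [DecidableEq ι] (U : Finset ι) (x y w : ι → ℝ)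
    (E : Finset (Finset ι)) (hE : ∀ e ∈ E, e ⊆ U ∧ e.card = 2)
    (p q : Finset ι → ℝ)
    (h : ∀ e ∈ E, ∀ i ∈ e, ∀ j ∈ U, j ∉ e →
      (p e - x i) ^ 2 + (q e - y i) ^ 2 + w i < (p e - x j) ^ 2 + (q e - y j) ^ 2 + w j) :
    E.card ≤ 4 * U.card := by
  classical
  obtain ⟨x', y', hx, hcol, hlt⟩ := perturb U x y w E (fun e he => (hE e he).1) p q h
  obtain ⟨E', hE'⟩ : ∃ E' : Finset (ι × ι), E' = (U ×ˢ U).filter
      (fun e => x' e.1 < x' e.2 ∧ ({e.1, e.2} : Finset ι) ∈ E) := ⟨_, rfl⟩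
  have hmem : ∀ e : ι × ι, e ∈ E' ↔ (e.1 ∈ U ∧ e.2 ∈ U) ∧ x' e.1 < x' e.2 ∧
      ({e.1, e.2} : Finset ι) ∈ E := by
    intro e
    rw [hE', Finset.mem_filter, Finset.mem_product]
  have hcard : E.card ≤ E'.card := by
    have hsub : E ⊆ E'.image (fun e => ({e.1, e.2} : Finset ι)) := by
      intro s hs
      obtain ⟨hsU, hs2⟩ := hE s hs
      obtain ⟨a, b, hab, rfl⟩ := Finset.card_eq_two.1 hs2
      have ha : a ∈ U := hsU (by simp)
      have hb : b ∈ U := hsU (by simp)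
      rcases lt_or_gt_of_ne (hx a ha b hb hab) with h1 | h1
      · exact Finset.mem_image.2 ⟨(a, b), (hmem _).2 ⟨⟨ha, hb⟩, h1, hs⟩, rfl⟩
      · refine Finset.mem_image.2 ⟨(b, a), (hmem _).2 ⟨⟨hb, ha⟩, h1, ?_⟩, Finset.pair_comm b a⟩
        show ({b, a} : Finset ι) ∈ E
        rw [Finset.pair_comm]
        exact hs
    exact (Finset.card_le_card hsub).trans Finset.card_image_le
  have hPG : PG U x' y' E' := by
    refine ⟨hx, hcol, fun e he => ?_, ?_⟩
    · obtain ⟨⟨h1, h2⟩, h3, _⟩ := (hmem e).1 he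
      exact ⟨h1, h2, h3⟩
    · rintro ⟨a, b⟩ he ⟨c, d⟩ hf n1 n2 n3 n4 t t1 t2 t3 t4
      obtain ⟨⟨ha, hb⟩, hab, hE1⟩ := (hmem _).1 he
      obtain ⟨⟨hc, hd⟩, hcd, hE2⟩ := (hmem _).1 hf
      simp only at n1 n2 n3 n4 ha hb hab hE1 hc hd hcd hE2 t1 t2 t3 t4
      refine no_cross x' y' w a b c d (p {a, b}) (q {a, b}) (p {c, d}) (q {c, d}) ?_ ?_ hab hcd
        t t1 t2 t3 t4
      · intro i hi j hj
        refine hlt _ hE1 i (by rcases hi with rfl | rfl <;> simp) j
          (by rcases hj with rfl | rfl <;> assumption) ?_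
        rw [Finset.mem_insert, Finset.mem_singleton]
        rcases hj with rfl | rfl
        · rintro (h1 | h1)
          · exact n1 h1.symm
          · exact n3 h1.symm
        · rintro (h1 | h1)
          · exact n2 h1.symm
          · exact n4 h1.symm
      · intro i hi j hj
        refine hlt _ hE2 i (by rcases hi with rfl | rfl <;> simp) j
          (by rcases hj with rfl | rfl <;> assumption) ?_
        rw [Finset.mem_insert, Finset.mem_singleton]
        rcases hj with rfl | rfl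
        · rintro (h1 | h1)
          · exact n1 h1
          · exact n2 h1
        · rintro (h1 | h1)
          · exact n3 h1
          · exact n4 h1
  exact hcard.trans (edges_le hPG)

/-- tie breaking: from lexicographic witnesses to strict ones -/
theorem tie_break {ι : Type*} [DecidableEq ι] (D : Finset ι) (x y w : ι → ℝ) (idx : ι → ℕ)
    (E : Finset (Finset ι)) (p q : Finset ι → ℝ)
    (h : ∀ e ∈ E, ∀ i ∈ e, ∀ j ∈ D, j ∉ e →
      (p e - x i) ^ 2 + (q e - y i) ^ 2 + w i < (p e - x j) ^ 2 + (q e - y j) ^ 2 + w j ∨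
      ((p e - x i) ^ 2 + (q e - y i) ^ 2 + w i = (p e - x j) ^ 2 + (q e - y j) ^ 2 + w j ∧
        idx i < idx j)) :
    ∃ ε : ℝ, 0 < ε ∧ ∀ e ∈ E, ∀ i ∈ e, ∀ j ∈ D, j ∉ e →
      (p e - x i) ^ 2 + (q e - y i) ^ 2 + (w i + ε * idx i) <
        (p e - x j) ^ 2 + (q e - y j) ^ 2 + (w j + ε * idx j) := by
  have key : ∀ᶠ ε : ℝ in nhdsWithin 0 (Set.Ioi 0), ∀ e ∈ E, ∀ i ∈ e, ∀ j ∈ D, j ∉ e →
      (p e - x i) ^ 2 + (q e - y i) ^ 2 + (w i + ε * idx i) <
        (p e - x j) ^ 2 + (q e - y j) ^ 2 + (w j + ε * idx j) := by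
    rw [Filter.eventually_all_finset]
    intro e he
    rw [Filter.eventually_all_finset]
    intro i hi
    rw [Filter.eventually_all_finset]
    intro j hj
    by_cases hje : j ∉ e
    · rcases h e he i hi j hj hje with h1 | ⟨h1, h2⟩
      · have hopen : IsOpen {ε : ℝ | (p e - x i) ^ 2 + (q e - y i) ^ 2 + (w i + ε * idx i) <
            (p e - x j) ^ 2 + (q e - y j) ^ 2 + (w j + ε * idx j)} :=
          isOpen_lt (by fun_prop) (by fun_prop)
        have h0 : (0 : ℝ) ∈ {ε : ℝ | (p e - x i) ^ 2 + (q e - y i) ^ 2 + (w i + ε * idx i) <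
            (p e - x j) ^ 2 + (q e - y j) ^ 2 + (w j + ε * idx j)} := by
          simp only [Set.mem_ofPred_eq, zero_mul, add_zero]
          exact h1
        filter_upwards [mem_nhdsWithin_of_mem_nhds (hopen.mem_nhds h0)] with ε hε _
        exact hε
      · filter_upwards [self_mem_nhdsWithin] with ε hε _
        have h3 : ε * (idx i : ℝ) < ε * (idx j : ℝ) :=
          mul_lt_mul_of_pos_left (Nat.cast_lt.2 h2) hε
        linarith
    · filter_upwards with ε h'
      exact absurd h' hje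
  obtain ⟨ε, h1, h2⟩ := (key.and self_mem_nhdsWithin).exists
  exact ⟨ε, h2, h1⟩

/-- a lower set with at least two elements contains the two lexicographically smallest ones -/
theorem two_smallest {ι : Type*} [DecidableEq ι] (D W : Finset ι) (hW : W ⊆ D) (F : ι → ℝ)
    (idx : ι → ℕ) (hidx : ∀ i ∈ D, ∀ j ∈ D, idx i = idx j → i = j) (τ : ℝ)
    (hin : ∀ i ∈ D, i ∈ W ↔ F i ≤ τ) (h2 : 2 ≤ W.card) :
    ∃ e : Finset ι, e ⊆ W ∧ e.card = 2 ∧ ∀ i ∈ e, ∀ j ∈ D, j ∉ e →
      F i < F j ∨ (F i = F j ∧ idx i < idx j) := by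
  have hne : W.Nonempty := Finset.card_pos.mp (by omega)
  obtain ⟨i0, hi0, hmin0⟩ := Finset.exists_min_image W
    (fun i => (toLex (F i, idx i) : ℝ ×ₗ ℕ)) hne
  have hne1 : (W.erase i0).Nonempty := by
    apply Finset.card_pos.mp
    rw [Finset.card_erase_of_mem hi0]
    omega
  obtain ⟨i1, hi1, hmin1⟩ := Finset.exists_min_image (W.erase i0)
    (fun i => (toLex (F i, idx i) : ℝ ×ₗ ℕ)) hne1
  have hi1' := Finset.mem_erase.mp hi1
  refine ⟨{i0, i1}, ?_, ?_, ?_⟩
  · intro i hi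
    rw [Finset.mem_insert, Finset.mem_singleton] at hi
    rcases hi with rfl | rfl
    · exact hi0
    · exact hi1'.2
  · exact Finset.card_pair (Ne.symm hi1'.1)
  · intro i hi j hj hje
    have hje' : j ≠ i0 ∧ j ≠ i1 := by
      constructor
      · rintro rfl
        exact hje (by simp)
      · rintro rfl
        exact hje (by simp)
    have hiW : i ∈ W ∧ i ≠ j := by
      rw [Finset.mem_insert, Finset.mem_singleton] at hi
      rcases hi with rfl | rfl
      · exact ⟨hi0, Ne.symm hje'.1⟩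
      · exact ⟨hi1'.2, Ne.symm hje'.2⟩
    by_cases hjW : j ∈ W
    · have hle : (toLex (F i, idx i) : ℝ ×ₗ ℕ) ≤ toLex (F j, idx j) := by
        rw [Finset.mem_insert, Finset.mem_singleton] at hi
        rcases hi with rfl | rfl
        · exact hmin0 j hjW
        · exact hmin1 j (Finset.mem_erase.mpr ⟨hje'.1, hjW⟩)
      rw [Prod.Lex.toLex_le_toLex] at hle
      rcases hle with h | ⟨h, h'⟩
      · exact Or.inl h
      · refine Or.inr ⟨h, lt_of_le_of_ne h' ?_⟩
        intro heq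
        exact hiW.2 (hidx i (hW hiW.1) j hj heq)
    · left
      have h1 := (hin i (hW hiW.1)).mp hiW.1
      have h3 : ¬ F j ≤ τ := fun h => hjW ((hin j hj).mpr h)
      linarith

/-- extraction lemma: one ninth of the discs such that every point all of whose discs are chosen
lies in at most one disc -/
theorem extraction {ι : Type*} [DecidableEq ι] (D : Finset ι) (x y r : ι → ℝ) :
    ∃ S ⊆ D, D.card ≤ 9 * S.card ∧
      ∀ a b : ℝ, (∀ i ∈ D, Mem x y r a b i → i ∈ S) →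
        ∀ i ∈ D, ∀ j ∈ D, Mem x y r a b i → Mem x y r a b j → i = j := by
  classical
  set idx : ι → ℕ := fun i => if h : i ∈ D then (D.equivFin ⟨i, h⟩).val else 0 with hidxdef
  have hidx : ∀ i ∈ D, ∀ j ∈ D, idx i = idx j → i = j := by
    intro i hi j hj h
    simp only [hidxdef, hi, hj, dif_pos] at h
    have h2 : D.equivFin ⟨i, hi⟩ = D.equivFin ⟨j, hj⟩ := Fin.ext h
    have h3 := D.equivFin.injective h2
    exact congrArg Subtype.val h3
  set F : ℝ → ℝ → ι → ℝ := fun a b i => (a - x i) ^ 2 + (b - y i) ^ 2 + (-(r i) ^ 2) with hF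
  set G : ι → ι → Prop := fun i j => i ≠ j ∧ i ∈ D ∧ j ∈ D ∧ ∃ a b : ℝ,
    ∀ l, (l = i ∨ l = j) → ∀ j' ∈ D, j' ≠ i → j' ≠ j →
      (F a b l < F a b j' ∨ (F a b l = F a b j' ∧ idx l < idx j')) with hG
  have hsymm : ∀ i j, G i j → G j i := by
    rintro i j ⟨h1, h2, h3, a, b, h⟩
    exact ⟨h1.symm, h3, h2, a, b, fun l hl j' hj' h4 h5 => h l hl.symm j' hj' h5 h4⟩
  have hirr : ∀ i, ¬ G i i := fun i h => h.1 rfl
  obtain ⟨S, hSD, hcard, hind⟩ := indep_of_sparse D G hsymm hirr (by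
    intro U hU E hE
    have key : ∀ e : Finset ι, e ∈ E → ∃ pq : ℝ × ℝ, ∀ l ∈ e, ∀ j' ∈ U, j' ∉ e →
        (F pq.1 pq.2 l < F pq.1 pq.2 j' ∨
          (F pq.1 pq.2 l = F pq.1 pq.2 j' ∧ idx l < idx j')) := by
      intro e he
      obtain ⟨i, hi, j, hj, ⟨h1, h2, h3, a, b, h⟩, rfl⟩ := hE e he
      refine ⟨(a, b), ?_⟩
      intro l hl j' hj' hj'e
      simp only [mem_insert, mem_singleton, not_or] at hl hj'e
      exact h l hl j' (hU hj') hj'e.1 hj'e.2
    choose! pq hpq using key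
    have hE2 : ∀ e ∈ E, e ⊆ U ∧ e.card = 2 := by
      intro e he
      obtain ⟨i, hi, j, hj, ⟨h1, h2, h3, a, b, h⟩, rfl⟩ := hE e he
      refine ⟨?_, card_pair h1⟩
      intro z hz
      simp only [mem_insert, mem_singleton] at hz
      rcases hz with rfl | rfl
      · exact hi
      · exact hj
    obtain ⟨ε, hε, hstrict⟩ := tie_break U x y (fun i => -(r i) ^ 2) idx E
      (fun e => (pq e).1) (fun e => (pq e).2) (by
        intro e he i hi j hj hje
        exact hpq e he i hi j hj hje)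
    exact sparse_pairs U x y (fun i => -(r i) ^ 2 + ε * idx i) E hE2
      (fun e => (pq e).1) (fun e => (pq e).2) hstrict)
  refine ⟨S, hSD, hcard, ?_⟩
  intro a b hall i hi j hj hmi hmj
  by_contra hij
  have hMF : ∀ l, Mem x y r a b l ↔ F a b l ≤ 0 := by
    intro l
    simp only [Mem, hF]
    constructor <;> intro h <;> linarith
  set W : Finset ι := D.filter (fun l => F a b l ≤ 0) with hW
  have hWD : W ⊆ D := filter_subset _ _
  have hiW : i ∈ W := by rw [hW, mem_filter]; exact ⟨hi, (hMF i).1 hmi⟩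
  have hjW : j ∈ W := by rw [hW, mem_filter]; exact ⟨hj, (hMF j).1 hmj⟩
  have h2 : 2 ≤ W.card := by
    have : ({i, j} : Finset ι) ⊆ W := by
      intro z hz
      simp only [mem_insert, mem_singleton] at hz
      rcases hz with rfl | rfl
      · exact hiW
      · exact hjW
    calc 2 = ({i, j} : Finset ι).card := (card_pair hij).symm
      _ ≤ W.card := card_le_card this
  obtain ⟨e, heW, hec, he⟩ := two_smallest D W hWD (F a b) idx hidx 0 (by
    intro l hl
    rw [hW, mem_filter]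
    exact ⟨fun h => h.2, fun h => ⟨hl, h⟩⟩) h2
  obtain ⟨i', j', hne, rfl⟩ := card_eq_two.1 hec
  have hi' : i' ∈ W := heW (by simp)
  have hj' : j' ∈ W := heW (by simp)
  have hSi : i' ∈ S := hall i' (hWD hi') ((hMF i').2 (mem_filter.1 hi').2)
  have hSj : j' ∈ S := hall j' (hWD hj') ((hMF j').2 (mem_filter.1 hj').2)
  refine hind i' hSi j' hSj ⟨hne, hWD hi', hWD hj', a, b, ?_⟩
  intro l hl m hm h3 h4
  exact he l (by simpa using hl) m hm (by simp [h3, h4])

/-- logarithmic conflict-free colouring -/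
theorem log_cf {ι : Type*} [DecidableEq ι] (x y r : ι → ℝ) (t : ℕ) :
    ∀ D : Finset ι, D.card * 8 ^ t < 9 ^ t → ∃ χ : ι → ℕ, (∀ i ∈ D, χ i < t) ∧ CF x y r D χ := by
  induction t with
  | zero =>
    intro D hD
    have h0 : D = ∅ := by
      rw [← Finset.card_eq_zero]
      simpa using hD
    subst h0
    refine ⟨fun _ => 0, by simp, ?_⟩
    intro a b h
    obtain ⟨i, hi, _⟩ := h
    simp at hi
  | succ t ih =>
    intro D hD
    obtain ⟨S, hSD, hcard, hS⟩ := extraction D x y r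
    have hR : (D \ S).card + S.card = D.card := Finset.card_sdiff_add_card_eq_card hSD
    have hlt : (D \ S).card * 8 ^ t < 9 ^ t := by
      have h9 : 9 * (D \ S).card ≤ 8 * D.card := by omega
      have h1 : 9 * ((D \ S).card * 8 ^ t) < 9 * 9 ^ t := by
        calc 9 * ((D \ S).card * 8 ^ t) = (9 * (D \ S).card) * 8 ^ t := by ring
          _ ≤ (8 * D.card) * 8 ^ t := Nat.mul_le_mul_right _ h9
          _ = D.card * 8 ^ (t + 1) := by ring
          _ < 9 ^ (t + 1) := hD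
          _ = 9 * 9 ^ t := by ring
      exact Nat.lt_of_mul_lt_mul_left h1
    obtain ⟨χ', hχ', hCF⟩ := ih (D \ S) hlt
    refine ⟨fun i => if i ∈ D \ S then χ' i else t, ?_, ?_⟩
    · intro i _
      by_cases hi : i ∈ D \ S
      · simp only [hi, if_true]
        exact lt_trans (hχ' i hi) (Nat.lt_succ_self t)
      · simp only [hi, if_false]
        exact Nat.lt_succ_self t
    · intro a b h
      by_cases hex : ∃ i ∈ D \ S, Mem x y r a b i
      · obtain ⟨i, hi, hm, hu⟩ := hCF a b hex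
        refine ⟨i, (Finset.mem_sdiff.mp hi).1, hm, ?_⟩
        intro j _ hjm hji
        by_cases hjR : j ∈ D \ S
        · simp only [hjR, hi, if_true]
          exact hu j hjR hjm hji
        · simp only [hjR, hi, if_true, if_false]
          exact Nat.ne_of_gt (hχ' i hi)
      · obtain ⟨i, hi, him⟩ := h
        refine ⟨i, hi, him, ?_⟩
        intro j hj hjm hji
        exfalso
        apply hji
        refine (hS a b ?_ i hi j hj him hjm).symm
        intro k hk hkm
        by_contra hkS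
        exact hex ⟨k, Finset.mem_sdiff.mpr ⟨hk, hkS⟩, hkm⟩

/-- clustered two-colouring from small balanced separations -/
theorem cluster {ι : Type*} [DecidableEq ι] (A : ι → ι → Prop) [DecidableRel A]
    (hA : ∀ i j, A i j → A j i)
    (k m : ℕ) (hk : 1 ≤ k) (hm : 1 ≤ m) (D : Finset ι)
    (hdeg : ∀ i ∈ D, (D.filter (fun j => j ≠ i ∧ A i j)).card ≤ k)
    (hsep : ∀ H ⊆ D, ∀ B ⊆ H, 24 * m ≤ B.card → ∃ U₁ U₂ X : Finset ι,
      U₁ ∪ X ∪ U₂ = H ∧ Disjoint U₁ U₂ ∧ Disjoint U₁ X ∧ Disjoint X U₂ ∧ X.card ≤ m ∧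
      (∀ i ∈ U₁, ∀ j ∈ U₂, ¬ A i j) ∧ 4 * m ≤ (B ∩ U₁).card ∧ 4 * m ≤ (B ∩ U₂).card) :
    ∀ H ⊆ D, ∀ B ⊆ H, 4 * m ≤ B.card → B.card ≤ 24 * m * k →
      ∃ (χ : ι → Bool) (cl : ι → ℕ) (Z : Finset ι), B ⊆ Z ∧ Z ⊆ H ∧ Z.card + 4 * m ≤ 2 * B.card ∧
        (∀ i ∈ Z, χ i = true) ∧ (∀ i ∈ Z, ∀ j ∈ H, j ∉ Z → A i j → χ j = false) ∧
        (∀ i ∈ H, ∀ j ∈ H, χ i = χ j → A i j → cl i = cl j) ∧
        (∀ i ∈ H, (H.filter (fun j => χ j = χ i ∧ cl j = cl i)).card ≤ 48 * m * k) := by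
  intro H
  induction H using Finset.strongInduction with
  | H H ih =>
  intro hHD B hBH hB4 hBk
  have hmk : m ≤ m * k := Nat.le_mul_of_pos_right m hk
  rcases Nat.lt_or_ge B.card (24 * m) with hcase | hcase
  · -- CASE 1
    have hBne : B.Nonempty := Finset.card_pos.1 (by omega)
    by_cases hH' : (H \ B).card ≤ 4 * m
    · refine ⟨fun i => decide (i ∈ B), fun _ => 0, B, Finset.Subset.refl _, hBH, by omega, ?_, ?_,
        ?_, ?_⟩
      · intro i hi
        exact decide_eq_true hi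
      · intro i _ j _ hj _
        exact decide_eq_false hj
      · intro i _ j _ _ _
        rfl
      · intro i _
        by_cases hiB : i ∈ B
        · have : (H.filter (fun j => decide (j ∈ B) = decide (i ∈ B) ∧ (0 : ℕ) = 0)) ⊆ B := by
            intro j hj
            have h1 := (Finset.mem_filter.1 hj).2.1
            rw [decide_eq_true hiB] at h1
            exact of_decide_eq_true h1
          have h2 := Finset.card_le_card this
          have h3 : B.card ≤ 48 * m * k := by nlinarith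
          exact h2.trans h3
        · have : (H.filter (fun j => decide (j ∈ B) = decide (i ∈ B) ∧ (0 : ℕ) = 0)) ⊆ H \ B := by
            intro j hj
            have h1 := (Finset.mem_filter.1 hj).2.1
            rw [decide_eq_false hiB] at h1
            exact Finset.mem_sdiff.2 ⟨(Finset.mem_filter.1 hj).1, of_decide_eq_false h1⟩
          have h2 := Finset.card_le_card this
          have h3 : (H \ B).card ≤ 48 * m * k := by nlinarith
          exact h2.trans h3
    · have hH'2 : 4 * m < (H \ B).card := not_le.1 hH'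
      have hsub : H \ B ⊂ H := by
        refine Finset.ssubset_iff_subset_ne.2 ⟨Finset.sdiff_subset, ?_⟩
        intro h
        obtain ⟨b, hb⟩ := hBne
        have h1 : b ∈ H \ B := by rw [h]; exact hBH hb
        exact (Finset.mem_sdiff.1 h1).2 hb
      obtain ⟨B0, hB0⟩ : ∃ B0 : Finset ι, B0 = (H \ B).filter (fun j => ∃ i ∈ B, A i j) := ⟨_, rfl⟩
      have hB0sub : B0 ⊆ H \ B := by
        rw [hB0]
        exact Finset.filter_subset _ _
      have hB0mem : ∀ i ∈ B, ∀ j ∈ H, j ∉ B → A i j → j ∈ B0 := by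
        intro i hi j hj hjB hij
        rw [hB0]
        exact Finset.mem_filter.2 ⟨Finset.mem_sdiff.2 ⟨hj, hjB⟩, i, hi, hij⟩
      have hB0card : B0.card ≤ 24 * m * k := by
        have h1 : B0 ⊆ B.biUnion (fun i => D.filter (fun j => j ≠ i ∧ A i j)) := by
          intro j hj
          rw [hB0] at hj
          obtain ⟨hj1, i, hi, hij⟩ := Finset.mem_filter.1 hj
          obtain ⟨hjH, hjB⟩ := Finset.mem_sdiff.1 hj1
          refine Finset.mem_biUnion.2 ⟨i, hi, Finset.mem_filter.2 ⟨hHD hjH, ?_, hij⟩⟩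
          rintro rfl
          exact hjB hi
        have h2 := (Finset.card_le_card h1).trans Finset.card_biUnion_le
        have h3 : ∑ i ∈ B, (D.filter (fun j => j ≠ i ∧ A i j)).card ≤ B.card * k := by
          rw [← smul_eq_mul]
          exact Finset.sum_le_card_nsmul _ _ _ (fun i hi => hdeg i (hHD (hBH hi)))
        have h4 : B.card * k ≤ 24 * m * k := Nat.mul_le_mul_right k (by omega)
        omega
      obtain ⟨B', hB'1, hB'2, hB'3, hB'4⟩ : ∃ B' : Finset ι, B0 ⊆ B' ∧ B' ⊆ H \ B ∧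
          4 * m ≤ B'.card ∧ B'.card ≤ 24 * m * k := by
        rcases Nat.lt_or_ge B0.card (4 * m) with h | h
        · obtain ⟨B', h1, h2, h3⟩ := Finset.exists_subsuperset_card_eq hB0sub h.le hH'2.le
          refine ⟨B', h1, h2, h3.ge, ?_⟩
          rw [h3]
          nlinarith
        · exact ⟨B0, Finset.Subset.refl _, hB0sub, h, hB0card⟩
      obtain ⟨χ', cl', Z', hZ'1, hZ'2, hZ'3, hZ'4, hZ'5, hZ'6, hZ'7⟩ :=
        ih (H \ B) hsub (Finset.sdiff_subset.trans hHD) B' hB'2 hB'3 hB'4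
      have hnb : ∀ i ∈ B, ∀ j ∈ H, j ∉ B → A i j → χ' j = true := by
        intro i hi j hj hjB hij
        exact hZ'4 j (hZ'1 (hB'1 (hB0mem i hi j hj hjB hij)))
      refine ⟨fun i => if i ∈ B then true else !(χ' i), fun i => if i ∈ B then 0 else cl' i + 1, B,
        Finset.Subset.refl _, hBH, by omega, ?_, ?_, ?_, ?_⟩
      · intro i hi
        simp only [if_pos hi]
      · intro i hi j hj hjB hij
        simp only [if_neg hjB, hnb i hi j hj hjB hij, Bool.not_true]
      · intro i hi j hj hij hA'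
        by_cases hiB : i ∈ B
        · by_cases hjB : j ∈ B
          · simp only [if_pos hiB, if_pos hjB]
          · exfalso
            simp only [if_pos hiB, if_neg hjB, hnb i hiB j hj hjB hA', Bool.not_true] at hij
            exact Bool.noConfusion hij
        · by_cases hjB : j ∈ B
          · exfalso
            simp only [if_pos hjB, if_neg hiB, hnb j hjB i hi hiB (hA _ _ hA'), Bool.not_true] at hij
            exact Bool.noConfusion hij
          · simp only [if_neg hiB, if_neg hjB, Bool.not_inj_iff] at hij ⊢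
            rw [hZ'6 i (Finset.mem_sdiff.2 ⟨hi, hiB⟩) j (Finset.mem_sdiff.2 ⟨hj, hjB⟩) hij hA']
      · intro i hi
        by_cases hiB : i ∈ B
        · simp only [if_pos hiB]
          have h1 : (H.filter (fun j => (if j ∈ B then true else !(χ' j)) = true ∧
              (if j ∈ B then 0 else cl' j + 1) = 0)) ⊆ B := by
            intro j hj
            have h2 := (Finset.mem_filter.1 hj).2.2
            by_contra hjB
            rw [if_neg hjB] at h2
            omega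
          have h2 := Finset.card_le_card h1
          have h3 : B.card ≤ 48 * m * k := by nlinarith
          exact h2.trans h3
        · simp only [if_neg hiB]
          have h1 : (H.filter (fun j => (if j ∈ B then true else !(χ' j)) = !(χ' i) ∧
              (if j ∈ B then 0 else cl' j + 1) = cl' i + 1)) ⊆
              (H \ B).filter (fun j => χ' j = χ' i ∧ cl' j = cl' i) := by
            intro j hj
            obtain ⟨hj1, hj2, hj3⟩ := Finset.mem_filter.1 hj
            have hjB : j ∉ B := by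
              intro hjB
              rw [if_pos hjB] at hj3
              omega
            rw [if_neg hjB] at hj2 hj3
            exact Finset.mem_filter.2 ⟨Finset.mem_sdiff.2 ⟨hj1, hjB⟩, Bool.not_inj_iff.1 hj2,
              by omega⟩
          exact (Finset.card_le_card h1).trans (hZ'7 i (Finset.mem_sdiff.2 ⟨hi, hiB⟩))
  · -- CASE 2
    obtain ⟨U₁, U₂, X, hU, hd12, hd1X, hdX2, hXm, hno, hB1c, hB2c⟩ := hsep H hHD B hBH hcase
    have hU1H : U₁ ⊆ H := by
      rw [← hU]; exact Finset.subset_union_left.trans Finset.subset_union_left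
    have hXH : X ⊆ H := by
      rw [← hU]; exact Finset.subset_union_right.trans Finset.subset_union_left
    have hU2H : U₂ ⊆ H := by
      rw [← hU]; exact Finset.subset_union_right
    have hmemH : ∀ i ∈ H, i ∈ U₁ ∨ i ∈ X ∨ i ∈ U₂ := by
      intro i hi
      rw [← hU] at hi
      rcases Finset.mem_union.1 hi with h | h
      · rcases Finset.mem_union.1 h with h | h
        · exact Or.inl h
        · exact Or.inr (Or.inl h)
      · exact Or.inr (Or.inr h)
    have hd12' : Disjoint (B ∩ U₁) (B ∩ U₂) :=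
      Finset.disjoint_of_subset_left Finset.inter_subset_right
        (Finset.disjoint_of_subset_right Finset.inter_subset_right hd12)
    have hsum : (B ∩ U₁).card + (B ∩ U₂).card ≤ B.card := by
      rw [← Finset.card_union_of_disjoint hd12']
      exact Finset.card_le_card (Finset.union_subset Finset.inter_subset_left
        Finset.inter_subset_left)
    have hBc1 : ((B ∩ U₁) ∪ X).card ≤ (B ∩ U₁).card + m :=
      (Finset.card_union_le _ _).trans (by omega)
    have hBc2 : ((B ∩ U₂) ∪ X).card ≤ (B ∩ U₂).card + m :=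
      (Finset.card_union_le _ _).trans (by omega)
    have hBc1' : (B ∩ U₁).card ≤ ((B ∩ U₁) ∪ X).card :=
      Finset.card_le_card Finset.subset_union_left
    have hBc2' : (B ∩ U₂).card ≤ ((B ∩ U₂) ∪ X).card :=
      Finset.card_le_card Finset.subset_union_left
    have hs1 : U₁ ∪ X ⊂ H := by
      refine Finset.ssubset_iff_subset_ne.2 ⟨Finset.union_subset hU1H hXH, ?_⟩
      intro h
      obtain ⟨b, hb⟩ : (B ∩ U₂).Nonempty := Finset.card_pos.1 (by omega)
      have hbU := (Finset.mem_inter.1 hb).2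
      have hbH : b ∈ U₁ ∪ X := by rw [h]; exact hU2H hbU
      rcases Finset.mem_union.1 hbH with h1 | h1
      · exact Finset.disjoint_left.1 hd12 h1 hbU
      · exact Finset.disjoint_left.1 hdX2 h1 hbU
    have hs2 : U₂ ∪ X ⊂ H := by
      refine Finset.ssubset_iff_subset_ne.2 ⟨Finset.union_subset hU2H hXH, ?_⟩
      intro h
      obtain ⟨b, hb⟩ : (B ∩ U₁).Nonempty := Finset.card_pos.1 (by omega)
      have hbU := (Finset.mem_inter.1 hb).2
      have hbH : b ∈ U₂ ∪ X := by rw [h]; exact hU1H hbU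
      rcases Finset.mem_union.1 hbH with h1 | h1
      · exact Finset.disjoint_left.1 hd12 hbU h1
      · exact Finset.disjoint_left.1 hd1X hbU h1
    obtain ⟨χ₁, cl₁, Z₁, a1, a2, a3, a4, a5, a6, a7⟩ := ih (U₁ ∪ X) hs1 (hs1.1.trans hHD)
      ((B ∩ U₁) ∪ X) (Finset.union_subset_union_left Finset.inter_subset_right) (by omega)
      (by omega)
    obtain ⟨χ₂, cl₂, Z₂, b1, b2, b3, b4, b5, b6, b7⟩ := ih (U₂ ∪ X) hs2 (hs2.1.trans hHD)
      ((B ∩ U₂) ∪ X) (Finset.union_subset_union_left Finset.inter_subset_right) (by omega)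
      (by omega)
    have hXZ1 : X ⊆ Z₁ := Finset.subset_union_right.trans a1
    have hXZ2 : X ⊆ Z₂ := Finset.subset_union_right.trans b1
    have h12X : ∀ i, i ∈ U₁ ∪ X → i ∈ U₂ ∪ X → i ∈ X := by
      intro i hi hi'
      rcases Finset.mem_union.1 hi with h | h
      · rcases Finset.mem_union.1 hi' with h' | h'
        · exact absurd h' (Finset.disjoint_left.1 hd12 h)
        · exact h'
      · exact h
    have hZ1iff : ∀ i ∈ U₁ ∪ X, (i ∈ Z₁ ∪ Z₂ ↔ i ∈ Z₁) := by
      intro i hi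
      constructor
      · intro h
        rcases Finset.mem_union.1 h with h | h
        · exact h
        · exact hXZ1 (h12X i hi (b2 h))
      · intro h
        exact Finset.mem_union_left _ h
    have hZ2iff : ∀ i ∈ U₂ ∪ X, (i ∈ Z₁ ∪ Z₂ ↔ i ∈ Z₂) := by
      intro i hi
      constructor
      · intro h
        rcases Finset.mem_union.1 h with h | h
        · exact hXZ2 (h12X i (a2 h) hi)
        · exact h
      · intro h
        exact Finset.mem_union_right _ h
    have hor : ∀ i ∈ H, i ∈ U₁ ∪ X ∨ i ∈ U₂ ∪ X := by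
      intro i hi
      rcases hmemH i hi with h | h | h
      · exact Or.inl (Finset.mem_union_left _ h)
      · exact Or.inl (Finset.mem_union_right _ h)
      · exact Or.inr (Finset.mem_union_left _ h)
    have hedge : ∀ i ∈ H, ∀ j ∈ H, A i j → (i ∈ U₁ ∪ X ∧ j ∈ U₁ ∪ X) ∨
        (i ∈ U₂ ∪ X ∧ j ∈ U₂ ∪ X) := by
      intro i hi j hj hij
      rcases hmemH i hi with h | h | h
      · rcases hmemH j hj with h' | h' | h'
        · exact Or.inl ⟨Finset.mem_union_left _ h, Finset.mem_union_left _ h'⟩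
        · exact Or.inl ⟨Finset.mem_union_left _ h, Finset.mem_union_right _ h'⟩
        · exact absurd hij (hno i h j h')
      · rcases hor j hj with h' | h'
        · exact Or.inl ⟨Finset.mem_union_right _ h, h'⟩
        · exact Or.inr ⟨Finset.mem_union_right _ h, h'⟩
      · rcases hmemH j hj with h' | h' | h'
        · exact absurd (hA _ _ hij) (hno j h' i h)
        · exact Or.inr ⟨Finset.mem_union_left _ h, Finset.mem_union_right _ h'⟩
        · exact Or.inr ⟨Finset.mem_union_left _ h, Finset.mem_union_left _ h'⟩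
    obtain ⟨χ, hχ⟩ : ∃ χ : ι → Bool, χ = fun i => if i ∈ U₁ ∪ X then χ₁ i else χ₂ i := ⟨_, rfl⟩
    obtain ⟨cl, hcl⟩ : ∃ cl : ι → ℕ, cl = fun i => if i ∈ Z₁ ∪ Z₂ then 0 else
      if i ∈ U₁ ∪ X then 2 * cl₁ i + 1 else 2 * cl₂ i + 2 := ⟨_, rfl⟩
    have hχ1 : ∀ i ∈ U₁ ∪ X, χ i = χ₁ i := by
      intro i hi
      rw [hχ]
      exact if_pos hi
    have hχ2 : ∀ i ∈ U₂ ∪ X, χ i = χ₂ i := by
      intro i hi
      by_cases h : i ∈ U₁ ∪ X
      · have hX := h12X i h hi
        rw [hχ1 i h, a4 i (hXZ1 hX), b4 i (hXZ2 hX)]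
      · rw [hχ]
        exact if_neg h
    have hclZ : ∀ i ∈ Z₁ ∪ Z₂, cl i = 0 := by
      intro i hi
      rw [hcl]
      exact if_pos hi
    have hcl1 : ∀ i ∈ U₁ ∪ X, i ∉ Z₁ ∪ Z₂ → cl i = 2 * cl₁ i + 1 := by
      intro i hi hiZ
      rw [hcl]
      show (if i ∈ Z₁ ∪ Z₂ then 0 else _) = _
      rw [if_neg hiZ, if_pos hi]
    have hnot1 : ∀ i ∈ U₂ ∪ X, i ∉ Z₁ ∪ Z₂ → i ∉ U₁ ∪ X := by
      intro i hi hiZ h
      exact hiZ (Finset.mem_union_left _ (hXZ1 (h12X i h hi)))
    have hcl2 : ∀ i ∈ U₂ ∪ X, i ∉ Z₁ ∪ Z₂ → cl i = 2 * cl₂ i + 2 := by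
      intro i hi hiZ
      rw [hcl]
      show (if i ∈ Z₁ ∪ Z₂ then 0 else _) = _
      rw [if_neg hiZ, if_neg (hnot1 i hi hiZ)]
    have hZtrue : ∀ i ∈ Z₁ ∪ Z₂, χ i = true := by
      intro i hi
      rcases Finset.mem_union.1 hi with h | h
      · rw [hχ1 i (a2 h), a4 i h]
      · rw [hχ2 i (b2 h), b4 i h]
    have hZnb : ∀ i ∈ Z₁ ∪ Z₂, ∀ j ∈ H, j ∉ Z₁ ∪ Z₂ → A i j → χ j = false := by
      intro i hi j hj hjZ hij
      have hiH : i ∈ H := by
        rcases Finset.mem_union.1 hi with h | h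
        · exact hs1.1 (a2 h)
        · exact hs2.1 (b2 h)
      rcases hedge i hiH j hj hij with ⟨h1, h2⟩ | ⟨h1, h2⟩
      · rw [hχ1 j h2]
        exact a5 i ((hZ1iff i h1).1 hi) j h2 (fun h => hjZ ((hZ1iff j h2).2 h)) hij
      · rw [hχ2 j h2]
        exact b5 i ((hZ2iff i h1).1 hi) j h2 (fun h => hjZ ((hZ2iff j h2).2 h)) hij
    have hZcard : (Z₁ ∪ Z₂).card + 4 * m ≤ 2 * B.card := by
      have := Finset.card_union_le Z₁ Z₂
      omega
    refine ⟨χ, cl, Z₁ ∪ Z₂, ?_, ?_, hZcard, hZtrue, hZnb, ?_, ?_⟩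
    · intro b hb
      rcases hmemH b (hBH hb) with h | h | h
      · exact Finset.mem_union_left _ (a1 (Finset.mem_union_left _ (Finset.mem_inter.2 ⟨hb, h⟩)))
      · exact Finset.mem_union_left _ (hXZ1 h)
      · exact Finset.mem_union_right _ (b1 (Finset.mem_union_left _ (Finset.mem_inter.2 ⟨hb, h⟩)))
    · exact Finset.union_subset (a2.trans hs1.1) (b2.trans hs2.1)
    · intro i hi j hj hij hA'
      by_cases hiZ : i ∈ Z₁ ∪ Z₂
      · by_cases hjZ : j ∈ Z₁ ∪ Z₂
        · rw [hclZ i hiZ, hclZ j hjZ]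
        · exfalso
          rw [hZtrue i hiZ, hZnb i hiZ j hj hjZ hA'] at hij
          exact Bool.noConfusion hij
      · by_cases hjZ : j ∈ Z₁ ∪ Z₂
        · exfalso
          rw [hZtrue j hjZ, hZnb j hjZ i hi hiZ (hA _ _ hA')] at hij
          exact Bool.noConfusion hij
        · rcases hedge i hi j hj hA' with ⟨h1, h2⟩ | ⟨h1, h2⟩
          · rw [hcl1 i h1 hiZ, hcl1 j h2 hjZ]
            rw [hχ1 i h1, hχ1 j h2] at hij
            rw [a6 i h1 j h2 hij hA']
          · rw [hcl2 i h1 hiZ, hcl2 j h2 hjZ]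
            rw [hχ2 i h1, hχ2 j h2] at hij
            rw [b6 i h1 j h2 hij hA']
    · intro i hi
      by_cases hiZ : i ∈ Z₁ ∪ Z₂
      · have h1 : H.filter (fun j => χ j = χ i ∧ cl j = cl i) ⊆ Z₁ ∪ Z₂ := by
          intro j hj
          obtain ⟨hj1, _, hj3⟩ := Finset.mem_filter.1 hj
          rw [hclZ i hiZ] at hj3
          by_contra hjZ
          rcases hor j hj1 with h | h
          · rw [hcl1 j h hjZ] at hj3
            omega
          · rw [hcl2 j h hjZ] at hj3
            omega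
        have h2 := Finset.card_le_card h1
        have h3 : 2 * B.card ≤ 48 * m * k := by
          calc 2 * B.card ≤ 2 * (24 * m * k) := Nat.mul_le_mul_left 2 hBk
            _ = 48 * m * k := by ring
        omega
      · rcases hor i hi with h | h
        · have h1 : H.filter (fun j => χ j = χ i ∧ cl j = cl i) ⊆
              (U₁ ∪ X).filter (fun j => χ₁ j = χ₁ i ∧ cl₁ j = cl₁ i) := by
            intro j hj
            obtain ⟨hj1, hj2, hj3⟩ := Finset.mem_filter.1 hj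
            rw [hcl1 i h hiZ] at hj3
            have hjZ : j ∉ Z₁ ∪ Z₂ := by
              intro hjZ
              rw [hclZ j hjZ] at hj3
              omega
            have hj4 : j ∈ U₁ ∪ X := by
              rcases hor j hj1 with h' | h'
              · exact h'
              · rw [hcl2 j h' hjZ] at hj3
                omega
            rw [hcl1 j hj4 hjZ] at hj3
            rw [hχ1 i h, hχ1 j hj4] at hj2
            exact Finset.mem_filter.2 ⟨hj4, hj2, by omega⟩
          exact (Finset.card_le_card h1).trans (a7 i h)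
        · have h1 : H.filter (fun j => χ j = χ i ∧ cl j = cl i) ⊆
              (U₂ ∪ X).filter (fun j => χ₂ j = χ₂ i ∧ cl₂ j = cl₂ i) := by
            intro j hj
            obtain ⟨hj1, hj2, hj3⟩ := Finset.mem_filter.1 hj
            rw [hcl2 i h hiZ] at hj3
            have hjZ : j ∉ Z₁ ∪ Z₂ := by
              intro hjZ
              rw [hclZ j hjZ] at hj3
              omega
            have hj4 : j ∈ U₂ ∪ X := by
              rcases hor j hj1 with h' | h'
              · rw [hcl1 j h' hjZ] at hj3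
                omega
              · exact h'
            rw [hcl2 j hj4 hjZ] at hj3
            rw [hχ2 i h, hχ2 j hj4] at hj2
            exact Finset.mem_filter.2 ⟨hj4, hj2, by omega⟩
          exact (Finset.card_le_card h1).trans (b7 i h)

/-- clustered two-colouring of the whole family -/
theorem cluster_all {ι : Type*} [DecidableEq ι] (A : ι → ι → Prop) [DecidableRel A]
    (hA : ∀ i j, A i j → A j i)
    (k m : ℕ) (hk : 1 ≤ k) (hm : 1 ≤ m) (D : Finset ι)
    (hdeg : ∀ i ∈ D, (D.filter (fun j => j ≠ i ∧ A i j)).card ≤ k)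
    (hsep : ∀ H ⊆ D, ∀ B ⊆ H, 24 * m ≤ B.card → ∃ U₁ U₂ X : Finset ι,
      U₁ ∪ X ∪ U₂ = H ∧ Disjoint U₁ U₂ ∧ Disjoint U₁ X ∧ Disjoint X U₂ ∧ X.card ≤ m ∧
      (∀ i ∈ U₁, ∀ j ∈ U₂, ¬ A i j) ∧ 4 * m ≤ (B ∩ U₁).card ∧ 4 * m ≤ (B ∩ U₂).card) :
      ∃ (χ : ι → Bool) (cl : ι → ℕ),
        (∀ i ∈ D, ∀ j ∈ D, χ i = χ j → A i j → cl i = cl j) ∧
        (∀ i ∈ D, (D.filter (fun j => χ j = χ i ∧ cl j = cl i)).card ≤ 48 * m * k) := by
  rcases lt_or_ge D.card (4 * m) with hD | hD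
  · refine ⟨fun _ => true, fun _ => 0, fun _ _ _ _ _ _ => rfl, fun i _ => ?_⟩
    calc (D.filter (fun j => (fun _ => true : ι → Bool) j = (fun _ => true : ι → Bool) i ∧
            (fun _ => 0 : ι → ℕ) j = (fun _ => 0 : ι → ℕ) i)).card ≤ D.card :=
          Finset.card_le_card (Finset.filter_subset _ _)
      _ ≤ 4 * m := hD.le
      _ ≤ 48 * m := by omega
      _ ≤ 48 * m * k := Nat.le_mul_of_pos_right _ hk
  · obtain ⟨B, hB, hBc⟩ := Finset.exists_subset_card_eq hD
    have h2 : B.card ≤ 24 * m * k := by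
      rw [hBc]
      calc 4 * m ≤ 24 * m := by omega
        _ ≤ 24 * m * k := Nat.le_mul_of_pos_right _ hk
    obtain ⟨χ, cl, Z, -, -, -, -, -, h6, h7⟩ :=
      cluster A hA k m hk hm D hdeg hsep D (Finset.Subset.refl D) B hB hBc.ge h2
    exact ⟨χ, cl, h6, h7⟩

theorem pack_card (A B : ℝ) (h : B - A ≤ 15) : (Finset.Icc ⌈A⌉ ⌊B⌋).card ≤ 16 := by
  rw [Int.card_Icc]
  have h1 := Int.floor_le B
  have h2 := Int.le_ceil A
  have h3 : ((⌊B⌋ - ⌈A⌉ : ℤ) : ℝ) ≤ 15 := by push_cast; linarith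
  have h4 : ⌊B⌋ - ⌈A⌉ ≤ 15 := by exact_mod_cast h3
  omega

theorem pack_mem (ρ r a b x y : ℝ) (hρ : 0 < ρ) (hr : ρ ≤ r) (h : (a - x) ^ 2 + (b - y) ^ 2 ≤ r ^ 2)
    (u v p q : ℝ) (hu : u = a + ρ / r * (x - a)) (hv : v = b + ρ / r * (y - b))
    (hp : |p - u| ≤ ρ / 2) (hq : |q - v| ≤ ρ / 2) :
    |u - a| ≤ ρ ∧ |v - b| ≤ ρ ∧ (p - x) ^ 2 + (q - y) ^ 2 ≤ r ^ 2 := by
  have hr0 : 0 < r := lt_of_lt_of_le hρ hr
  have ht : ρ / r * r = ρ := div_mul_cancel₀ _ hr0.ne'
  have ht0 : 0 < ρ / r := div_pos hρ hr0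
  have ht1 : ρ / r ≤ 1 := (div_le_one hr0).2 hr
  set t := ρ / r with htdef
  have hax : |a - x| ≤ r := by
    apply abs_le_of_sq_le_sq _ hr0.le
    nlinarith [sq_nonneg (b - y)]
  have hby : |b - y| ≤ r := by
    apply abs_le_of_sq_le_sq _ hr0.le
    nlinarith [sq_nonneg (a - x)]
  refine ⟨?_, ?_, ?_⟩
  · have e : u - a = t * (x - a) := by rw [hu]; ring
    rw [e, abs_mul, abs_of_pos ht0, abs_sub_comm x a]
    calc t * |a - x| ≤ t * r := mul_le_mul_of_nonneg_left hax ht0.le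
      _ = ρ := ht
  · have e : v - b = t * (y - b) := by rw [hv]; ring
    rw [e, abs_mul, abs_of_pos ht0, abs_sub_comm y b]
    calc t * |b - y| ≤ t * r := mul_le_mul_of_nonneg_left hby ht0.le
      _ = ρ := ht
  · have e1 : u - x = (1 - t) * (a - x) := by rw [hu]; ring
    have e2 : v - y = (1 - t) * (b - y) := by rw [hv]; ring
    have hc : (u - x) ^ 2 + (v - y) ^ 2 ≤ (r - ρ) ^ 2 := by
      rw [e1, e2]
      have : r - ρ = (1 - t) * r := by rw [sub_mul, ht, one_mul]
      rw [this]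
      nlinarith [sq_nonneg (1 - t)]
    have hd : (p - u) ^ 2 + (q - v) ^ 2 ≤ ρ ^ 2 := by
      have h1 : (p - u) ^ 2 ≤ (ρ / 2) ^ 2 := by
        rw [← sq_abs (p - u)]
        exact pow_le_pow_left₀ (abs_nonneg _) hp 2
      have h2 : (q - v) ^ 2 ≤ (ρ / 2) ^ 2 := by
        rw [← sq_abs (q - v)]
        exact pow_le_pow_left₀ (abs_nonneg _) hq 2
      nlinarith [sq_nonneg ρ]
    have hcs : ((u - x) * (p - u) + (v - y) * (q - v)) ^ 2 ≤ ((r - ρ) * ρ) ^ 2 := by
      have h3 : ((u - x) * (p - u) + (v - y) * (q - v)) ^ 2 ≤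
          ((u - x) ^ 2 + (v - y) ^ 2) * ((p - u) ^ 2 + (q - v) ^ 2) := by
        nlinarith [sq_nonneg ((u - x) * (q - v) - (v - y) * (p - u))]
      refine h3.trans ?_
      rw [mul_pow]
      exact mul_le_mul hc hd (by positivity) (by positivity)
    have hcs' := abs_le_of_sq_le_sq hcs (mul_nonneg (by linarith) hρ.le)
    have hcs'' := (abs_le.1 hcs').2
    have e3 : (p - x) ^ 2 + (q - y) ^ 2 = ((u - x) ^ 2 + (v - y) ^ 2) +
        2 * ((u - x) * (p - u) + (v - y) * (q - v)) + ((p - u) ^ 2 + (q - v) ^ 2) := by ring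
    rw [e3]
    nlinarith

open Classical in
/-- packing -/
theorem packing {ι : Type*} (x y r : ι → ℝ) (k : ℕ) (D : Finset ι) (hr : ∀ i ∈ D, 0 < r i)
    (hdeg : ∀ i ∈ D, (D.filter (fun j => j ≠ i ∧ Adj x y r i j)).card ≤ k)
    (ρ : ℝ) (hρ : 0 < ρ) (α γ : ℝ) (W : Finset ι) (hW : W ⊆ D) (hWr : ∀ i ∈ W, ρ ≤ r i)
    (hWp : ∀ i ∈ W, ∃ a b : ℝ, Mem x y r a b i ∧ α ≤ a ∧ a ≤ α + 12 * ρ ∧ γ ≤ b ∧ b ≤ γ + 12 * ρ) :
    W.card ≤ 256 * (k + 1) := by
  have h1 : ∀ i ∈ W, ∃ g : ℤ × ℤ, Mem x y r (ρ * g.1) (ρ * g.2) i ∧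
      g ∈ (Finset.Icc ⌈α / ρ - 3 / 2⌉ ⌊α / ρ + 27 / 2⌋) ×ˢ
        (Finset.Icc ⌈γ / ρ - 3 / 2⌉ ⌊γ / ρ + 27 / 2⌋) := by
    intro i hi
    obtain ⟨a, b, hm, ha1, ha2, hb1, hb2⟩ := hWp i hi
    have round_est : ∀ w : ℝ, |ρ * (round (w / ρ) : ℝ) - w| ≤ ρ / 2 := by
      intro w
      have h2 := abs_sub_round (w / ρ)
      have e : ρ * (round (w / ρ) : ℝ) - w = -(ρ * (w / ρ - (round (w / ρ) : ℝ))) := by
        rw [mul_sub, mul_div_cancel₀ _ hρ.ne']; ring
      rw [e, abs_neg, abs_mul, abs_of_pos hρ]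
      nlinarith
    have range_est : ∀ w c d : ℝ, |w - c| ≤ ρ → d ≤ c → c ≤ d + 12 * ρ →
        round (w / ρ) ∈ Finset.Icc ⌈d / ρ - 3 / 2⌉ ⌊d / ρ + 27 / 2⌋ := by
      intro w c d hwc hdc hcd
      have h2 := abs_le.1 (abs_sub_round (w / ρ))
      have h3 := abs_le.1 hwc
      have h4 : d / ρ - 1 ≤ w / ρ := by
        rw [div_sub_one hρ.ne']
        exact (div_le_div_iff_of_pos_right hρ).2 (by linarith)
      have h5 : w / ρ ≤ d / ρ + 13 := by
        rw [div_add' _ _ _ hρ.ne']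
        exact (div_le_div_iff_of_pos_right hρ).2 (by linarith)
      rw [Finset.mem_Icc]
      constructor
      · rw [Int.ceil_le]; linarith
      · rw [Int.le_floor]; linarith
    obtain ⟨k1, k2, k3⟩ := pack_mem ρ (r i) a b (x i) (y i) hρ (hWr i hi) hm _ _ _ _ rfl rfl
      (round_est (a + ρ / r i * (x i - a))) (round_est (b + ρ / r i * (y i - b)))
    refine ⟨(round ((a + ρ / r i * (x i - a)) / ρ), round ((b + ρ / r i * (y i - b)) / ρ)), k3, ?_⟩
    rw [Finset.mem_product]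
    exact ⟨range_est _ a α k1 ha1 ha2, range_est _ b γ k2 hb1 hb2⟩
  choose! g hg1 hg2 using h1
  have h2 := Finset.card_le_mul_card_image_of_maps_to hg2 (k + 1) (by
    intro c _
    rcases Finset.eq_empty_or_nonempty (W.filter fun i => g i = c) with he | ⟨i, hi⟩
    · rw [he]; simp
    · have hiW := (Finset.mem_filter.1 hi).1
      have hic := (Finset.mem_filter.1 hi).2
      have hsub : (W.filter fun i => g i = c) ⊆
          insert i (D.filter (fun j => j ≠ i ∧ Adj x y r i j)) := by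
        intro j hj
        have hjW := (Finset.mem_filter.1 hj).1
        have hjc := (Finset.mem_filter.1 hj).2
        by_cases hji : j = i
        · rw [hji]; exact Finset.mem_insert_self _ _
        · refine Finset.mem_insert_of_mem (Finset.mem_filter.2 ⟨hW hjW, hji, ?_⟩)
          refine ⟨_, _, hg1 i hiW, ?_⟩
          rw [hic, ← hjc]
          exact hg1 j hjW
      calc (W.filter fun i => g i = c).card ≤ _ := Finset.card_le_card hsub
        _ ≤ _ := Finset.card_insert_le _ _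
        _ ≤ k + 1 := Nat.add_le_add_right (hdeg i (hW hiW)) 1)
  rw [Finset.card_product] at h2
  have h3 := pack_card (α / ρ - 3 / 2) (α / ρ + 27 / 2) (by linarith)
  have h4 := pack_card (γ / ρ - 3 / 2) (γ / ρ + 27 / 2) (by linarith)
  calc W.card ≤ _ := h2
    _ ≤ (k + 1) * (16 * 16) := Nat.mul_le_mul_left _ (Nat.mul_le_mul h3 h4)
    _ = 256 * (k + 1) := by ring

theorem zint (s t : ℝ) (h : ⌊s⌋ ≠ ⌊t⌋) : ∃ z : ℤ, |(z : ℝ) - t| ≤ |s - t| := by
  have s1 := Int.floor_le s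
  have s2 := Int.lt_floor_add_one s
  have t1 := Int.floor_le t
  have t2 := Int.lt_floor_add_one t
  rcases lt_or_gt_of_ne h with h | h
  · refine ⟨⌊t⌋, ?_⟩
    have h' : (⌊s⌋ : ℝ) + 1 ≤ (⌊t⌋ : ℝ) := by exact_mod_cast h
    rw [abs_of_nonpos (by linarith), abs_of_nonpos (by linarith)]
    linarith
  · refine ⟨⌊s⌋, ?_⟩
    have h' : (⌊t⌋ : ℝ) + 1 ≤ (⌊s⌋ : ℝ) := by exact_mod_cast h
    rw [abs_of_nonneg (by linarith), abs_of_nonneg (by linarith)]
    linarith

theorem zint2 (n : ℤ) (T x r : ℝ) (hr : 0 < r) (h6 : 6 * r < (2 : ℝ) ^ n)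
    (h : ¬ ∀ a : ℝ, |a - x| ≤ r → ⌊(a - T) / (2 : ℝ) ^ n⌋ = ⌊(x - T) / (2 : ℝ) ^ n⌋) :
    ∃ z : ℤ, |(z : ℝ) - (x - T) / (2 : ℝ) ^ n| < 1 / 6 := by
  push Not at h
  obtain ⟨a, ha, hne⟩ := h
  obtain ⟨z, hz⟩ := zint _ _ hne
  refine ⟨z, lt_of_le_of_lt hz ?_⟩
  have hD : (0 : ℝ) < (2 : ℝ) ^ n := zpow_pos (by norm_num) n
  rw [← sub_div, abs_div, abs_of_pos hD, div_lt_iff₀ hD]
  have : a - T - (x - T) = a - x := by ring
  rw [this]
  linarith

/-- of two shifted dyadic grids, one does not cut a given short interval -/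
theorem shift_one (N n : ℤ) (hn : n ≤ N) (T x r : ℝ) (hr : 0 < r) (h6 : 6 * r < (2 : ℝ) ^ n) :
    (∀ a : ℝ, |a - x| ≤ r → ⌊(a - T) / (2 : ℝ) ^ n⌋ = ⌊(x - T) / (2 : ℝ) ^ n⌋) ∨
    (∀ a : ℝ, |a - x| ≤ r → ⌊(a - (T - (2 : ℝ) ^ N / 3)) / (2 : ℝ) ^ n⌋ =
      ⌊(x - (T - (2 : ℝ) ^ N / 3)) / (2 : ℝ) ^ n⌋) := by
  by_contra hcon
  rw [not_or] at hcon
  obtain ⟨h1, h2⟩ := hcon
  obtain ⟨z, hz⟩ := zint2 n T x r hr h6 h1
  obtain ⟨z', hz'⟩ := zint2 n (T - (2 : ℝ) ^ N / 3) x r hr h6 h2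
  have hD : (0 : ℝ) < (2 : ℝ) ^ n := zpow_pos (by norm_num) n
  obtain ⟨m, hm⟩ := Int.eq_ofNat_of_zero_le (show 0 ≤ N - n by omega)
  have hpow : (2 : ℝ) ^ N = (2 : ℝ) ^ m * (2 : ℝ) ^ n := by
    rw [← zpow_natCast, ← zpow_add₀ (by norm_num)]
    congr 1
    omega
  have e1 : (x - (T - (2 : ℝ) ^ N / 3)) / (2 : ℝ) ^ n = (x - T) / (2 : ℝ) ^ n + (2 : ℝ) ^ m / 3 := by
    rw [hpow]
    field_simp
    ring
  rw [e1] at hz'
  rw [abs_lt] at hz hz'
  have h3 : |3 * ((z' : ℝ) - z) - (2 : ℝ) ^ m| < 1 := by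
    rw [abs_lt]
    constructor <;> linarith
  have h4 : |3 * (z' - z) - (2 : ℤ) ^ m| < 1 := by
    exact_mod_cast h3
  have h5 : 3 * (z' - z) - (2 : ℤ) ^ m = 0 := Int.abs_lt_one_iff.1 h4
  have h7 : (3 : ℤ) ∣ 2 ^ m := ⟨z' - z, by linarith⟩
  have h8 : Prime (3 : ℤ) := Int.prime_three
  have h9 := h8.dvd_of_dvd_pow h7
  norm_num at h9

theorem floor_coarse_half (w : ℝ) : ⌊w / 2⌋ = ⌊w⌋ / 2 := by
  rw [Int.floor_eq_iff]
  have h1 := Int.floor_le w
  have h2 := Int.lt_floor_add_one w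
  have h3 : 2 * (⌊w⌋ / 2) ≤ ⌊w⌋ := by omega
  have h4 : ⌊w⌋ ≤ 2 * (⌊w⌋ / 2) + 1 := by omega
  have h3' : (2 : ℝ) * ((⌊w⌋ / 2 : ℤ) : ℝ) ≤ (⌊w⌋ : ℝ) := by exact_mod_cast h3
  have h4' : (⌊w⌋ : ℝ) ≤ 2 * ((⌊w⌋ / 2 : ℤ) : ℝ) + 1 := by exact_mod_cast h4
  constructor <;> linarith

theorem floor_coarse_pow (m : ℕ) (w w' : ℝ) (h : ⌊w⌋ = ⌊w'⌋) : ⌊w / 2 ^ m⌋ = ⌊w' / 2 ^ m⌋ := by
  induction m with
  | zero => simpa using h
  | succ m ih =>
    rw [pow_succ, ← div_div, ← div_div, floor_coarse_half, floor_coarse_half, ih]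

/-- equal dyadic cells stay equal at coarser levels -/
theorem floor_coarse (n n' : ℤ) (h : n ≤ n') (u v : ℝ)
    (huv : ⌊u / (2 : ℝ) ^ n⌋ = ⌊v / (2 : ℝ) ^ n⌋) : ⌊u / (2 : ℝ) ^ n'⌋ = ⌊v / (2 : ℝ) ^ n'⌋ := by
  obtain ⟨m, hm⟩ := Int.le.dest h
  have e : (2 : ℝ) ^ n' = (2 : ℝ) ^ n * 2 ^ m := by
    rw [← hm, zpow_add₀ two_ne_zero, zpow_natCast]
  rw [e, ← div_div, ← div_div]
  exact floor_coarse_pow m _ _ huv

open Classical in
/-- balanced separations from the quadtree -/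
theorem separation {ι : Type*} (x y r : ι → ℝ) (k : ℕ) (D : Finset ι) (hr : ∀ i ∈ D, 0 < r i)
    (hdeg : ∀ i ∈ D, (D.filter (fun j => j ≠ i ∧ Adj x y r i j)).card ≤ k)
    (σ₁ σ₂ : ℝ) (lev : ι → ℤ) (top : ℤ)
    (hlev : ∀ i ∈ D, (2 : ℝ) ^ (lev i) ≤ 12 * r i)
    (htop : ∀ i ∈ D, lev i ≤ top ∧ ⌊(x i - σ₁) / (2 : ℝ) ^ top⌋ = 0 ∧
      ⌊(y i - σ₂) / (2 : ℝ) ^ top⌋ = 0)
    (hcell : ∀ i ∈ D, ∀ a b : ℝ, Mem x y r a b i →
      ⌊(a - σ₁) / (2 : ℝ) ^ (lev i)⌋ = ⌊(x i - σ₁) / (2 : ℝ) ^ (lev i)⌋ ∧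
      ⌊(b - σ₂) / (2 : ℝ) ^ (lev i)⌋ = ⌊(y i - σ₂) / (2 : ℝ) ^ (lev i)⌋) :
    ∀ H ⊆ D, ∀ B ⊆ H, 24 * (256 * (k + 1)) ≤ B.card → ∃ U₁ U₂ X : Finset ι,
      U₁ ∪ X ∪ U₂ = H ∧ Disjoint U₁ U₂ ∧ Disjoint U₁ X ∧ Disjoint X U₂ ∧ X.card ≤ 256 * (k + 1) ∧
      (∀ i ∈ U₁, ∀ j ∈ U₂, ¬ Adj x y r i j) ∧ 4 * (256 * (k + 1)) ≤ (B ∩ U₁).card ∧
      4 * (256 * (k + 1)) ≤ (B ∩ U₂).card := by
  intro H hHD B hBH hB
  have pk := packing x y r k D hr hdeg
  generalize hm : 256 * (k + 1) = m at *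
  have hmpos : 0 < m := by omega
  let Sub : ℤ → ℤ → ℤ → Finset ι := fun n u v => H.filter (fun i => lev i ≤ n ∧
    ⌊(x i - σ₁) / (2 : ℝ) ^ n⌋ = u ∧ ⌊(y i - σ₂) / (2 : ℝ) ^ n⌋ = v)
  have memSub : ∀ n u v i, i ∈ Sub n u v ↔ i ∈ H ∧ lev i ≤ n ∧
      ⌊(x i - σ₁) / (2 : ℝ) ^ n⌋ = u ∧ ⌊(y i - σ₂) / (2 : ℝ) ^ n⌋ = v := by
    intro n u v i
    simp only [Sub, Finset.mem_filter]
  have hex : ∃ n : ℤ, (∃ u v : ℤ, B.card ≤ 6 * (B ∩ Sub n u v).card) ∧
      ∀ z : ℤ, (∃ u v : ℤ, B.card ≤ 6 * (B ∩ Sub z u v).card) → n ≤ z := by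
    apply Int.exists_least_of_bdd
    · -- lower bound
      obtain ⟨L, hL⟩ : ∃ L : ℤ, ∀ i ∈ D, L ≤ lev i := by
        obtain ⟨L, hL⟩ := (D.image lev).bddBelow
        exact ⟨L, fun i hi => hL (by simpa using ⟨i, hi, rfl⟩)⟩
      refine ⟨L, fun z hz => ?_⟩
      obtain ⟨u, v, huv⟩ := hz
      have hne : (B ∩ Sub z u v).Nonempty := by
        rw [← Finset.card_pos]; omega
      obtain ⟨i, hi⟩ := hne
      have hi2 := (Finset.mem_inter.1 hi).2
      rw [memSub] at hi2
      exact (hL i (hHD hi2.1)).trans hi2.2.1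
    · refine ⟨top, 0, 0, ?_⟩
      have : B ∩ Sub top 0 0 = B := by
        rw [Finset.inter_eq_left]
        intro i hi
        rw [memSub]
        exact ⟨hBH hi, htop i (hHD (hBH hi))⟩
      rw [this]; omega
  obtain ⟨n, ⟨u, v, huv⟩, hmin⟩ := hex
  have h2n : (0 : ℝ) < (2 : ℝ) ^ n := by positivity
  -- cell points
  have cellpt : ∀ (s a : ℝ) (w : ℤ), ⌊(a - s) / (2 : ℝ) ^ n⌋ = w →
      s + w * (2 : ℝ) ^ n ≤ a ∧ a ≤ s + w * (2 : ℝ) ^ n + 12 * ((2 : ℝ) ^ n / 12) := by
    intro s a w hw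
    rw [Int.floor_eq_iff] at hw
    obtain ⟨h1, h2⟩ := hw
    rw [le_div_iff₀ h2n] at h1
    rw [div_lt_iff₀ h2n] at h2
    constructor
    · linarith
    · nlinarith
  have hpack : ∀ W : Finset ι, W ⊆ H → (∀ i ∈ W, n ≤ lev i) →
      (∀ i ∈ W, ∃ a b, Mem x y r a b i ∧ ⌊(a - σ₁) / (2 : ℝ) ^ n⌋ = u ∧
        ⌊(b - σ₂) / (2 : ℝ) ^ n⌋ = v) → W.card ≤ m := by
    intro W hWH hWn hWp
    refine pk ((2 : ℝ) ^ n / 12) (by positivity) (σ₁ + u * (2 : ℝ) ^ n)
      (σ₂ + v * (2 : ℝ) ^ n) W (hWH.trans hHD) ?_ ?_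
    · intro i hi
      have h1 := hlev i (hHD (hWH hi))
      have h2 : (2 : ℝ) ^ n ≤ (2 : ℝ) ^ (lev i) :=
        zpow_le_zpow_right₀ (by norm_num) (hWn i hi)
      linarith
    · intro i hi
      obtain ⟨a, b, hab, ha, hb⟩ := hWp i hi
      exact ⟨a, b, hab, (cellpt σ₁ a u ha).1, (cellpt σ₁ a u ha).2, (cellpt σ₂ b v hb).1,
        (cellpt σ₂ b v hb).2⟩
  let U₁ : Finset ι := Sub n u v
  let X : Finset ι := H.filter (fun i => n < lev i ∧ ∃ a b, Mem x y r a b i ∧
    ⌊(a - σ₁) / (2 : ℝ) ^ n⌋ = u ∧ ⌊(b - σ₂) / (2 : ℝ) ^ n⌋ = v)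
  let U₂ : Finset ι := H \ (U₁ ∪ X)
  have memX : ∀ i, i ∈ X ↔ i ∈ H ∧ n < lev i ∧ ∃ a b, Mem x y r a b i ∧
    ⌊(a - σ₁) / (2 : ℝ) ^ n⌋ = u ∧ ⌊(b - σ₂) / (2 : ℝ) ^ n⌋ = v := by
    intro i; simp only [X, Finset.mem_filter]
  have hU1H : U₁ ⊆ H := fun i hi => ((memSub n u v i).1 hi).1
  have hXH : X ⊆ H := fun i hi => ((memX i).1 hi).1
  have hXcard : X.card ≤ m := by
    apply hpack X hXH
    · intro i hi; exact ((memX i).1 hi).2.1.le
    · intro i hi; exact ((memX i).1 hi).2.2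
  have hEcard : (U₁.filter (fun i => lev i = n)).card ≤ m := by
    apply hpack _ ((Finset.filter_subset _ _).trans hU1H)
    · intro i hi; exact (Finset.mem_filter.1 hi).2.ge
    · intro i hi
      have h1 := (memSub n u v i).1 (Finset.mem_filter.1 hi).1
      refine ⟨x i, y i, ?_, h1.2.2.1, h1.2.2.2⟩
      unfold Mem
      nlinarith [sq_nonneg (r i)]
  have hDU1X : Disjoint U₁ X := by
    rw [Finset.disjoint_left]
    intro i hi hi'
    have h1 := (memSub n u v i).1 hi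
    have h2 := (memX i).1 hi'
    omega
  have hDU1U2 : Disjoint U₁ U₂ := by
    rw [Finset.disjoint_left]
    intro i hi hi'
    simp only [U₂, Finset.mem_sdiff, Finset.mem_union, not_or] at hi'
    exact hi'.2.1 hi
  have hDXU2 : Disjoint X U₂ := by
    rw [Finset.disjoint_left]
    intro i hi hi'
    simp only [U₂, Finset.mem_sdiff, Finset.mem_union, not_or] at hi'
    exact hi'.2.2 hi
  have hunion : U₁ ∪ X ∪ U₂ = H := by
    apply Finset.union_sdiff_of_subset
    exact Finset.union_subset hU1H hXH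
  -- the four children
  have hchild : ∀ u' v' : ℤ, 6 * (B ∩ Sub (n - 1) u' v').card < B.card := by
    intro u' v'
    by_contra hcon
    push Not at hcon
    have := hmin (n - 1) ⟨u', v', hcon⟩
    omega
  have hhalf : ∀ (s : ℝ) (w : ℤ), ⌊s / (2 : ℝ) ^ n⌋ = w →
      ⌊s / (2 : ℝ) ^ (n - 1)⌋ = 2 * w ∨ ⌊s / (2 : ℝ) ^ (n - 1)⌋ = 2 * w + 1 := by
    intro s w hw
    have e1 : s / (2 : ℝ) ^ (n - 1) = 2 * (s / (2 : ℝ) ^ n) := by
      rw [zpow_sub₀ (by norm_num : (2 : ℝ) ≠ 0), zpow_one]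
      field_simp
    rw [Int.floor_eq_iff] at hw
    rw [e1]
    have h1 : (2 * w : ℤ) ≤ ⌊2 * (s / (2 : ℝ) ^ n)⌋ := by
      rw [Int.le_floor]; push_cast; linarith [hw.1]
    have h2 : ⌊2 * (s / (2 : ℝ) ^ n)⌋ < 2 * w + 2 := by
      rw [Int.floor_lt]; push_cast; linarith [hw.2]
    omega
  have hcover : B ∩ U₁ ⊆ (U₁.filter (fun i => lev i = n)) ∪
      ((B ∩ Sub (n - 1) (2 * u) (2 * v)) ∪ (B ∩ Sub (n - 1) (2 * u) (2 * v + 1)) ∪
        ((B ∩ Sub (n - 1) (2 * u + 1) (2 * v)) ∪ (B ∩ Sub (n - 1) (2 * u + 1) (2 * v + 1)))) := by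
    intro i hi
    obtain ⟨hiB, hiU⟩ := Finset.mem_inter.1 hi
    have h1 := (memSub n u v i).1 hiU
    by_cases hl : lev i = n
    · exact Finset.mem_union_left _ (Finset.mem_filter.2 ⟨hiU, hl⟩)
    · have hl' : lev i ≤ n - 1 := by omega
      apply Finset.mem_union_right
      simp only [Finset.mem_union, Finset.mem_inter, memSub]
      rcases hhalf _ _ h1.2.2.1 with h2 | h2 <;> rcases hhalf _ _ h1.2.2.2 with h3 | h3 <;>
        simp [hiB, h1.1, hl', h2, h3]
  have hcard1 : (B ∩ U₁).card ≤ (U₁.filter (fun i => lev i = n)).card +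
      (((B ∩ Sub (n - 1) (2 * u) (2 * v)).card + (B ∩ Sub (n - 1) (2 * u) (2 * v + 1)).card) +
        ((B ∩ Sub (n - 1) (2 * u + 1) (2 * v)).card +
          (B ∩ Sub (n - 1) (2 * u + 1) (2 * v + 1)).card)) := by
    refine (Finset.card_le_card hcover).trans ?_
    refine (Finset.card_union_le _ _).trans ?_
    refine Nat.add_le_add_left ?_ _
    refine (Finset.card_union_le _ _).trans ?_
    exact Nat.add_le_add (Finset.card_union_le _ _) (Finset.card_union_le _ _)
  have hc1 := hchild (2 * u) (2 * v)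
  have hc2 := hchild (2 * u) (2 * v + 1)
  have hc3 := hchild (2 * u + 1) (2 * v)
  have hc4 := hchild (2 * u + 1) (2 * v + 1)
  have hBsplit : B.card ≤ (B ∩ U₁).card + X.card + (B ∩ U₂).card := by
    have hsub : B ⊆ (B ∩ U₁) ∪ X ∪ (B ∩ U₂) := by
      intro i hi
      have hiH : i ∈ U₁ ∪ X ∪ U₂ := by rw [hunion]; exact hBH hi
      simp only [Finset.mem_union, Finset.mem_inter] at hiH ⊢
      tauto
    refine (Finset.card_le_card hsub).trans ?_
    refine (Finset.card_union_le _ _).trans ?_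
    exact Nat.add_le_add_right (Finset.card_union_le _ _) _
  have huv' : B.card ≤ 6 * (B ∩ U₁).card := huv
  refine ⟨U₁, U₂, X, hunion, hDU1U2, hDU1X, hDXU2, hXcard, ?_, by omega, by omega⟩
  -- no adjacency
  intro i hi j hj hadj
  obtain ⟨a, b, hai, haj⟩ := hadj
  have h1 := (memSub n u v i).1 hi
  have hjH : j ∈ H := (Finset.mem_sdiff.1 hj).1
  have hjn : j ∉ U₁ ∧ j ∉ X := by
    have := (Finset.mem_sdiff.1 hj).2
    simpa [Finset.mem_union, not_or] using this
  have hci := hcell i (hHD h1.1) a b hai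
  have hau : ⌊(a - σ₁) / (2 : ℝ) ^ n⌋ = u := by
    rw [floor_coarse (lev i) n h1.2.1 _ _ hci.1]; exact h1.2.2.1
  have hbv : ⌊(b - σ₂) / (2 : ℝ) ^ n⌋ = v := by
    rw [floor_coarse (lev i) n h1.2.1 _ _ hci.2]; exact h1.2.2.2
  by_cases hlj : n < lev j
  · exact hjn.2 ((memX j).2 ⟨hjH, hlj, a, b, haj, hau, hbv⟩)
  · push Not at hlj
    have hcj := hcell j (hHD hjH) a b haj
    apply hjn.1
    refine (memSub n u v j).2 ⟨hjH, hlj, ?_, ?_⟩
    · rw [← floor_coarse (lev j) n hlj _ _ hcj.1]; exact hau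
    · rw [← floor_coarse (lev j) n hlj _ _ hcj.2]; exact hbv

open Classical in
/-- clustering of disc families: eight classes with clusters of quadratic size -/
theorem disc_cluster {ι : Type*} (x y r : ι → ℝ) (k : ℕ) (hk : 1 ≤ k) (D : Finset ι)
    (hr : ∀ i ∈ D, 0 < r i)
    (hdeg : ∀ i ∈ D, (D.filter (fun j => j ≠ i ∧ Adj x y r i j)).card ≤ k) :
    ∃ (κ : ι → ℕ) (cl : ι → ℕ), (∀ i ∈ D, κ i < 8) ∧
      (∀ i ∈ D, ∀ j ∈ D, κ i = κ j → Adj x y r i j → cl i = cl j) ∧
      (∀ i ∈ D, (D.filter (fun j => κ j = κ i ∧ cl j = cl i)).card ≤ 48 * (256 * (k + 1)) * k) := by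
  -- levels
  have hlev0 : ∀ i, ∃ n : ℤ, i ∈ D → (2 : ℝ) ^ n ≤ 12 * r i ∧ 6 * r i < (2 : ℝ) ^ n := by
    intro i
    by_cases hi : i ∈ D
    · have h6 : 0 < 6 * r i := by have := hr i hi; linarith
      obtain ⟨n, hn⟩ := exists_mem_Ico_zpow h6 (one_lt_two)
      refine ⟨n + 1, fun _ => ?_⟩
      have h1 := hn.1
      have h2 := hn.2
      refine ⟨?_, h2⟩
      rw [zpow_add_one₀ (two_ne_zero)]
      linarith
    · exact ⟨0, fun h => absurd h hi⟩
  choose lev hlev using hlev0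
  -- the size
  obtain ⟨K, hK⟩ : ∃ K : ℕ, ∀ i ∈ D, lev i ≤ (K : ℤ) ∧ |x i| ≤ K ∧ |y i| ≤ K := by
    refine ⟨∑ i ∈ D, ((lev i).toNat + ⌈|x i|⌉₊ + ⌈|y i|⌉₊), fun i hi => ?_⟩
    have h := Finset.single_le_sum (f := fun i => (lev i).toNat + ⌈|x i|⌉₊ + ⌈|y i|⌉₊)
      (fun j _ => Nat.zero_le _) hi
    set S := ∑ i ∈ D, ((lev i).toNat + ⌈|x i|⌉₊ + ⌈|y i|⌉₊)
    have e1 : (lev i).toNat ≤ S := by omega
    have e2 : ⌈|x i|⌉₊ ≤ S := by omega
    have e3 : ⌈|y i|⌉₊ ≤ S := by omega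
    refine ⟨?_, ?_, ?_⟩
    · omega
    · exact Nat.ceil_le.mp e2
    · exact Nat.ceil_le.mp e3
  have hK2 : (K : ℝ) < (2 : ℝ) ^ (K : ℤ) := by
    rw [zpow_natCast]
    exact_mod_cast Nat.lt_two_pow_self
  set N : ℤ := (K : ℤ) with hN
  set T : ℝ := -(2 : ℝ) ^ N with hT
  set sg : Bool → ℝ := fun b => if b then T else T - (2 : ℝ) ^ N / 3 with hsg
  have hNpos : (0 : ℝ) < (2 : ℝ) ^ N := by positivity
  have htop2 : (2 : ℝ) ^ (N + 2) = 4 * (2 : ℝ) ^ N := by
    rw [zpow_add₀ (two_ne_zero)]; norm_num; ring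
  have hfl : ∀ (b : Bool) (t : ℝ), |t| ≤ K → ⌊(t - sg b) / (2 : ℝ) ^ (N + 2)⌋ = 0 := by
    intro b t ht
    have ht' := abs_le.mp ht
    rw [Int.floor_eq_zero_iff]
    rw [htop2]
    have hp : (0 : ℝ) < 4 * (2 : ℝ) ^ N := by positivity
    constructor
    · apply div_nonneg _ hp.le
      cases b <;> simp only [hsg, hT] <;> simp <;> linarith
    · rw [div_lt_one hp]
      cases b <;> simp only [hsg, hT] <;> simp <;> linarith
  have hshift : ∀ (u : ι → ℝ) (i : ι), ∃ b : Bool, i ∈ D → ∀ a : ℝ, |a - u i| ≤ r i →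
      ⌊(a - sg b) / (2 : ℝ) ^ (lev i)⌋ = ⌊(u i - sg b) / (2 : ℝ) ^ (lev i)⌋ := by
    intro u i
    by_cases hi : i ∈ D
    · rcases shift_one N (lev i) (hK i hi).1 T (u i) (r i) (hr i hi) (hlev i hi).2 with h | h
      · exact ⟨true, fun _ a ha => by simpa [hsg] using h a ha⟩
      · exact ⟨false, fun _ a ha => by simpa [hsg] using h a ha⟩
    · exact ⟨true, fun h => absurd h hi⟩
  choose s₁ hs₁ using hshift x
  choose s₂ hs₂ using hshift y
  have hmain : ∀ p q : Bool, ∃ (χ : ι → Bool) (cl : ι → ℕ),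
      (∀ i ∈ D.filter (fun i => s₁ i = p ∧ s₂ i = q), ∀ j ∈ D.filter (fun i => s₁ i = p ∧ s₂ i = q),
        χ i = χ j → Adj x y r i j → cl i = cl j) ∧
      (∀ i ∈ D.filter (fun i => s₁ i = p ∧ s₂ i = q),
        ((D.filter (fun i => s₁ i = p ∧ s₂ i = q)).filter
          (fun j => χ j = χ i ∧ cl j = cl i)).card ≤ 48 * (256 * (k + 1)) * k) := by
    intro p q
    have hdeg' : ∀ i ∈ D.filter (fun i => s₁ i = p ∧ s₂ i = q),
        ((D.filter (fun i => s₁ i = p ∧ s₂ i = q)).filter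
          (fun j => j ≠ i ∧ Adj x y r i j)).card ≤ k := by
      intro i hi
      refine le_trans (Finset.card_le_card ?_) (hdeg i (Finset.mem_filter.mp hi).1)
      intro j hj
      rw [Finset.mem_filter] at hj ⊢
      exact ⟨(Finset.mem_filter.mp hj.1).1, hj.2⟩
    apply cluster_all (Adj x y r) _ k (256 * (k + 1)) hk (by omega)
      (D.filter (fun i => s₁ i = p ∧ s₂ i = q)) hdeg'
    · apply separation x y r k (D.filter (fun i => s₁ i = p ∧ s₂ i = q)) _ hdeg' (sg p) (sg q)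
        lev (N + 2)
      · intro i hi
        exact (hlev i (Finset.mem_filter.mp hi).1).1
      · intro i hi
        have hiD := (Finset.mem_filter.mp hi).1
        refine ⟨?_, hfl p _ (hK i hiD).2.1, hfl q _ (hK i hiD).2.2⟩
        have := (hK i hiD).1
        omega
      · intro i hi a b hab
        obtain ⟨hiD, hp, hq⟩ := Finset.mem_filter.mp hi
        unfold Mem at hab
        have hri := hr i hiD
        have ha : |a - x i| ≤ r i := by
          apply abs_le_of_sq_le_sq _ hri.le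
          nlinarith [sq_nonneg (b - y i)]
        have hb : |b - y i| ≤ r i := by
          apply abs_le_of_sq_le_sq _ hri.le
          nlinarith [sq_nonneg (a - x i)]
        have e1 := hs₁ i hiD a ha
        have e2 := hs₂ i hiD b hb
        rw [hp] at e1
        rw [hq] at e2
        exact ⟨e1, e2⟩
      · intro i hi
        exact hr i (Finset.mem_filter.mp hi).1
    · rintro i j ⟨a, b, h1, h2⟩
      exact ⟨a, b, h2, h1⟩
  choose χ cl hcl1 hcl2 using hmain
  have hdec : ∀ i j : ι, 4 * (s₁ i).toNat + 2 * (s₂ i).toNat + (χ (s₁ i) (s₂ i) i).toNat =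
      4 * (s₁ j).toNat + 2 * (s₂ j).toNat + (χ (s₁ j) (s₂ j) j).toNat →
      s₁ i = s₁ j ∧ s₂ i = s₂ j ∧ χ (s₁ i) (s₂ i) i = χ (s₁ j) (s₂ j) j := by
    intro i j
    generalize χ (s₁ i) (s₂ i) i = a
    generalize χ (s₁ j) (s₂ j) j = b
    generalize s₁ i = c
    generalize s₂ i = d
    generalize s₁ j = e
    generalize s₂ j = f
    revert a b c d e f
    decide
  refine ⟨fun i => 4 * (s₁ i).toNat + 2 * (s₂ i).toNat + (χ (s₁ i) (s₂ i) i).toNat,
    fun i => cl (s₁ i) (s₂ i) i, ?_, ?_, ?_⟩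
  · intro i _
    show 4 * (s₁ i).toNat + 2 * (s₂ i).toNat + (χ (s₁ i) (s₂ i) i).toNat < 8
    generalize χ (s₁ i) (s₂ i) i = a
    generalize s₁ i = c
    generalize s₂ i = d
    revert a c d
    decide
  · intro i hi j hj hij hA
    obtain ⟨h1, h2, h3⟩ := hdec i j hij
    show cl (s₁ i) (s₂ i) i = cl (s₁ j) (s₂ j) j
    rw [← h1, ← h2] at h3 ⊢
    exact hcl1 (s₁ i) (s₂ i) i (Finset.mem_filter.mpr ⟨hi, rfl, rfl⟩) j
      (Finset.mem_filter.mpr ⟨hj, h1.symm, h2.symm⟩) h3 hA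
  · intro i hi
    refine le_trans (Finset.card_le_card ?_)
      (hcl2 (s₁ i) (s₂ i) i (Finset.mem_filter.mpr ⟨hi, rfl, rfl⟩))
    intro j hj
    rw [Finset.mem_filter] at hj
    obtain ⟨hjD, hk1, hc1⟩ := hj
    obtain ⟨h1, h2, h3⟩ := hdec j i hk1
    rw [h1, h2] at h3
    simp only [h1, h2] at hc1
    exact Finset.mem_filter.mpr ⟨Finset.mem_filter.mpr ⟨hjD, h1, h2⟩, h3, hc1⟩

/-- conflict-free colouring from a clustering -/
theorem combine {ι : Type*} [DecidableEq ι] (x y r : ι → ℝ) (D : Finset ι) (t q M : ℕ)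
    (hM : M * 8 ^ t < 9 ^ t) (κ cl : ι → ℕ) (hκ : ∀ i ∈ D, κ i < q)
    (hcl : ∀ i ∈ D, ∀ j ∈ D, κ i = κ j → Adj x y r i j → cl i = cl j)
    (hsize : ∀ i ∈ D, (D.filter (fun j => κ j = κ i ∧ cl j = cl i)).card ≤ M) :
    ∃ χ : ι → ℕ, (∀ i ∈ D, χ i < q * t) ∧ CF x y r D χ := by
  classical
  have hblock : ∀ c l : ℕ, ∃ χ : ι → ℕ, (∀ i ∈ D.filter (fun j => κ j = c ∧ cl j = l), χ i < t) ∧
      CF x y r (D.filter (fun j => κ j = c ∧ cl j = l)) χ := by
    intro c l
    apply log_cf x y r t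
    rcases Finset.eq_empty_or_nonempty (D.filter (fun j => κ j = c ∧ cl j = l)) with h | ⟨i, hi⟩
    · rw [h, Finset.card_empty, zero_mul]
      positivity
    · rw [Finset.mem_filter] at hi
      obtain ⟨hiD, hic, hil⟩ := hi
      have h1 := hsize i hiD
      rw [hic, hil] at h1
      calc (D.filter (fun j => κ j = c ∧ cl j = l)).card * 8 ^ t ≤ M * 8 ^ t :=
            Nat.mul_le_mul_right _ h1
        _ < 9 ^ t := hM
  choose X hX1 hX2 using hblock
  have hXt : ∀ i ∈ D, X (κ i) (cl i) i < t := by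
    intro i hi
    exact hX1 (κ i) (cl i) i (Finset.mem_filter.2 ⟨hi, rfl, rfl⟩)
  have hlt : ∀ c c' s s' : ℕ, c < c' → s < t → c * t + s < c' * t + s' := by
    intro c c' s s' hc hs
    have h1 : (c + 1) * t ≤ c' * t := Nat.mul_le_mul_right _ hc
    have h2 : (c + 1) * t = c * t + t := by ring
    omega
  refine ⟨fun i => κ i * t + X (κ i) (cl i) i, ?_, ?_⟩
  · intro i hi
    have h1 := hXt i hi
    have h2 := hlt (κ i) q _ 0 (hκ i hi) h1
    simpa using h2
  · rintro a b ⟨i0, hi0, hm0⟩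
    obtain ⟨i, hiB, hmi, hi⟩ := hX2 (κ i0) (cl i0) a b
      ⟨i0, Finset.mem_filter.2 ⟨hi0, rfl, rfl⟩, hm0⟩
    obtain ⟨hiD, hic, hil⟩ := Finset.mem_filter.1 hiB
    refine ⟨i, hiD, hmi, ?_⟩
    intro j hj hmj hji
    beta_reduce
    by_cases hc : κ j = κ i0
    · have hadj : Adj x y r i0 j := ⟨a, b, hm0, hmj⟩
      have hlj : cl i0 = cl j := hcl i0 hi0 j hj hc.symm hadj
      have h1 := hi j (Finset.mem_filter.2 ⟨hj, hc, hlj.symm⟩) hmj hji
      rw [hc, ← hlj, hic, hil]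
      intro h2
      exact h1 (Nat.add_left_cancel h2)
    · have h1 := hXt j hj
      have h2 := hXt i hiD
      rw [← hic] at hc
      rcases lt_or_gt_of_ne hc with h | h
      · exact (hlt _ _ _ _ h h1).ne
      · exact (hlt _ _ _ _ h h2).ne'

theorem numerics (k : ℕ) (hk : 2 ≤ k) :
    ∃ t : ℕ, 48 * (256 * (k + 1)) * k * 8 ^ t < 9 ^ t ∧ ((8 * t : ℕ) : ℝ) ≤ 3000 * Real.log k := by
  obtain ⟨L, hL⟩ : ∃ L, L = Nat.clog 2 k := ⟨_, rfl⟩
  have h1 : k ≤ 2 ^ L := by
    rw [hL]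
    exact Nat.le_pow_clog one_lt_two k
  have h2 : 2 ^ (L - 1) < k := by
    rw [hL]
    exact Nat.pow_pred_clog_lt_self one_lt_two (by omega)
  have hL1 : 1 ≤ L := by
    by_contra h
    have h3 : L = 0 := by omega
    rw [h3] at h1
    norm_num at h1
    omega
  refine ⟨102 * L, ?_, ?_⟩
  · have e1 : (9 : ℕ) ^ (102 * L) = (9 ^ 6) ^ (17 * L) := by
      rw [← pow_mul]
      congr 1
      ring
    have e2 : 2 ^ (17 * L) * (8 : ℕ) ^ (102 * L) = (2 * 8 ^ 6) ^ (17 * L) := by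
      rw [mul_pow, ← pow_mul]
      congr 2
      ring
    have h3 : 48 * (256 * (k + 1)) * k ≤ 2 ^ 15 * (k * k) := by
      have h4 : k + 1 ≤ 2 * k := by omega
      have h5 : (k + 1) * 2 ≤ 3 * k := by omega
      calc 48 * (256 * (k + 1)) * k = 6144 * (((k + 1) * 2) * k) := by ring
        _ ≤ 6144 * ((3 * k) * k) := by
          apply Nat.mul_le_mul_left
          exact Nat.mul_le_mul_right k h5
        _ = 18432 * (k * k) := by ring
        _ ≤ 2 ^ 15 * (k * k) := Nat.mul_le_mul_right _ (by norm_num)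
    have h4 : 2 ^ 15 * (k * k) ≤ 2 ^ (17 * L) := by
      calc 2 ^ 15 * (k * k) ≤ 2 ^ 15 * (2 ^ L * 2 ^ L) :=
            Nat.mul_le_mul_left _ (Nat.mul_le_mul h1 h1)
        _ = 2 ^ (15 + 2 * L) := by
          rw [pow_add, two_mul L, pow_add]
        _ ≤ 2 ^ (17 * L) := Nat.pow_le_pow_right (by norm_num) (by omega)
    calc 48 * (256 * (k + 1)) * k * 8 ^ (102 * L) ≤ 2 ^ (17 * L) * 8 ^ (102 * L) :=
          Nat.mul_le_mul_right _ (h3.trans h4)
      _ = (2 * 8 ^ 6) ^ (17 * L) := e2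
      _ < (9 ^ 6) ^ (17 * L) := Nat.pow_lt_pow_left (by norm_num) (by omega)
      _ = 9 ^ (102 * L) := e1.symm
  · have hk0 : (2 : ℝ) ≤ k := by exact_mod_cast hk
    have hl2 : Real.log 2 ≤ Real.log k := Real.log_le_log (by norm_num) hk0
    have hl3 : ((L : ℝ) - 1) * Real.log 2 ≤ Real.log k := by
      have h5 : ((2 : ℝ) ^ (L - 1)) ≤ (k : ℝ) := by exact_mod_cast h2.le
      have h6 := Real.log_le_log (by positivity) h5
      rw [Real.log_pow] at h6
      have h7 : ((L - 1 : ℕ) : ℝ) = (L : ℝ) - 1 := by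
        push_cast [Nat.cast_sub hL1]
        ring
      rw [h7] at h6
      exact h6
    have hlog := Real.log_two_gt_d9
    have hL0 : (0 : ℝ) ≤ (L : ℝ) := Nat.cast_nonneg _
    have h8 : 0.6931471803 * (L : ℝ) ≤ Real.log 2 * L :=
      mul_le_mul_of_nonneg_right hlog.le hL0
    have h9 : Real.log 2 * L ≤ 2 * Real.log k := by
      have : ((L : ℝ) - 1) * Real.log 2 = Real.log 2 * L - Real.log 2 := by ring
      linarith
    have h10 : 0 ≤ Real.log k := by linarith
    push_cast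
    linarith

/-- intervals need logarithmically many colours -/
theorem interval_colours (m : ℕ) : ∀ (s t : ℕ) (C : Finset ℕ) (χ : ℕ → ℕ), C.card ≤ m →
    (∀ i, s ≤ i → i < t → χ i ∈ C) →
    (∀ s' t' : ℕ, s ≤ s' → s' < t' → t' ≤ t → ∃ i, s' ≤ i ∧ i < t' ∧
      ∀ j, s' ≤ j → j < t' → j ≠ i → χ j ≠ χ i) → t - s < 2 ^ m := by
  induction m with
  | zero =>
    intro s t C χ hC hin _
    rw [pow_zero]
    by_contra hlt
    have hst : s < t := by omega
    have h := hin s le_rfl hst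
    have h0 : C = ∅ := Finset.card_eq_zero.1 (Nat.le_zero.1 hC)
    rw [h0] at h
    exact absurd h (Finset.notMem_empty _)
  | succ m ih =>
    intro s t C χ hC hin hcf
    by_cases hst : s < t
    · obtain ⟨i, hi1, hi2, hi⟩ := hcf s t le_rfl hst le_rfl
      have hiC := hin i hi1 hi2
      have hcard : (C.erase (χ i)).card ≤ m := by
        rw [Finset.card_erase_of_mem hiC]; omega
      have h1 := ih s i (C.erase (χ i)) χ hcard
        (fun j hj1 hj2 => Finset.mem_erase.2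
          ⟨hi j hj1 (by omega) (by omega), hin j hj1 (by omega)⟩)
        (fun s' t' a b c => hcf s' t' a b (by omega))
      have h2 := ih (i + 1) t (C.erase (χ i)) χ hcard
        (fun j hj1 hj2 => Finset.mem_erase.2
          ⟨hi j (by omega) (by omega) (by omega), hin j (by omega) (by omega)⟩)
        (fun s' t' a b c => hcf s' t' (by omega) b (by omega))
      rw [pow_succ]
      omega
    · have h0 : t - s = 0 := by omega
      rw [h0]; positivity

/-! ## The plane version -/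

/-- coordinates -/
noncomputable def X (d : Plane × ℝ) : ℝ := d.1 0
noncomputable def Y (d : Plane × ℝ) : ℝ := d.1 1
noncomputable def R (d : Plane × ℝ) : ℝ := d.2

theorem mem_disc_iff (d : Plane × ℝ) (hd : 0 < d.2) (p : Plane) :
    p ∈ disc d ↔ Mem X Y R (p 0) (p 1) d := by
  unfold disc Mem X Y R
  rw [Metric.mem_closedBall, EuclideanSpace.dist_eq, Fin.sum_univ_two]
  rw [Real.sqrt_le_left hd.le, Real.dist_eq, Real.dist_eq, sq_abs, sq_abs]

theorem adj_iff (d e : Plane × ℝ) (hd : 0 < d.2) (he : 0 < e.2) :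
    Adj X Y R d e ↔ (disc d ∩ disc e).Nonempty := by
  constructor
  · rintro ⟨a, b, h1, h2⟩
    refine ⟨!₂[a, b], ?_, ?_⟩
    · rw [mem_disc_iff d hd]; simpa using h1
    · rw [mem_disc_iff e he]; simpa using h2
  · rintro ⟨p, h1, h2⟩
    exact ⟨p 0, p 1, (mem_disc_iff d hd p).mp h1, (mem_disc_iff e he p).mp h2⟩

theorem upper (k : ℕ) (hk : 2 ≤ k) :
    ∃ t : ℕ, ((8 * t : ℕ) : ℝ) ≤ 3000 * Real.log k ∧
      ∀ D : Finset (Plane × ℝ), Admissible k D → ∃ χ : D → Fin (8 * t), ConflictFree D χ := by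
  classical
  obtain ⟨t, ht, ht2⟩ := numerics k hk
  refine ⟨t, ht2, ?_⟩
  rintro D ⟨hpos, hdeg⟩
  have hdeg' : ∀ i ∈ D, (D.filter (fun j => j ≠ i ∧ Adj X Y R i j)).card ≤ k := by
    intro i hi
    refine le_trans (le_of_eq ?_) (hdeg i hi)
    rw [← Set.ncard_coe_finset]
    congr 1
    ext e
    simp only [Finset.coe_filter, Set.mem_ofPred_eq]
    constructor
    · rintro ⟨h1, h2, h3⟩
      exact ⟨h1, h2, (adj_iff i e (hpos i hi) (hpos e h1)).mp h3⟩
    · rintro ⟨h1, h2, h3⟩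
      exact ⟨h1, h2, (adj_iff i e (hpos i hi) (hpos e h1)).mpr h3⟩
  obtain ⟨κ, cl, h1, h2, h3⟩ := disc_cluster X Y R k (by omega) D (fun i hi => hpos i hi)
    (by convert hdeg')
  obtain ⟨χ, hχ, hcf⟩ := combine X Y R D t 8 (48 * (256 * (k + 1)) * k) ht κ cl h1 h2
    (by convert h3)
  refine ⟨fun d => ⟨χ d.1, hχ d.1 d.2⟩, ?_⟩
  intro p ⟨d, hd⟩
  obtain ⟨i, hi, hi1, hi2⟩ := hcf (p 0) (p 1) ⟨d.1, d.2, (mem_disc_iff d.1 (hpos _ d.2) p).mp hd⟩
  refine ⟨⟨i, hi⟩, (mem_disc_iff i (hpos _ hi) p).mpr hi1, ?_⟩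
  intro e he hne h
  have h4 := hi2 e.1 e.2 ((mem_disc_iff e.1 (hpos _ e.2) p).mp he) (fun h' => hne (Subtype.ext h'))
  exact h4 (by simpa [Fin.ext_iff] using h)

/-- the chain of discs for the lower bound -/
noncomputable def ch (k j : ℕ) : Plane × ℝ := (!₂[(j : ℝ), 0], (k : ℝ) + 1)

theorem ch_inj (k : ℕ) {i j : ℕ} (h : ch k i = ch k j) : i = j := by
  have h1 : (ch k i).1 0 = (ch k j).1 0 := by rw [h]
  simpa [ch] using h1

theorem lower (k m : ℕ)
    (h : ∀ D : Finset (Plane × ℝ), Admissible k D → ∃ χ : D → Fin m, ConflictFree D χ) :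
    k < 2 ^ m := by
  classical
  let D : Finset (Plane × ℝ) := (Finset.range (k + 1)).image (ch k)
  have hmem : ∀ j, j < k + 1 → ch k j ∈ D := fun j hj =>
    Finset.mem_image_of_mem _ (Finset.mem_range.mpr hj)
  have hcard : D.card = k + 1 := by
    rw [Finset.card_image_of_injOn (fun a _ b _ hab => ch_inj k hab), Finset.card_range]
  have hpos : ∀ d ∈ D, 0 < d.2 := by
    intro d hd
    obtain ⟨j, -, rfl⟩ := Finset.mem_image.mp hd
    simp only [ch]; positivity
  have hadm : Admissible k D := by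
    refine ⟨hpos, ?_⟩
    intro d hd
    have h1 : {e | e ∈ D ∧ e ≠ d ∧ (disc d ∩ disc e).Nonempty} ⊆ ((D.erase d : Finset _) : Set _) := by
      rintro e ⟨he, hne, -⟩
      exact Finset.mem_coe.mpr (Finset.mem_erase.mpr ⟨hne, he⟩)
    refine le_trans (Set.ncard_le_ncard h1 (Finset.finite_toSet _)) ?_
    rw [Set.ncard_coe_finset, Finset.card_erase_of_mem hd, hcard]
    simp
  obtain ⟨χ, hχ⟩ := h D hadm
  let χ' : ℕ → ℕ := fun j => if hj : j < k + 1 then (χ ⟨ch k j, hmem j hj⟩ : ℕ) else 0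
  have h2 : (k + 1) - 0 < 2 ^ m := by
    refine interval_colours m 0 (k + 1) (Finset.range m) χ' (by simp) ?_ ?_
    · intro i _ hi
      simp only [χ', hi, dif_pos]
      exact Finset.mem_range.mpr (Fin.is_lt _)
    · intro s t _ hst htk
      -- the point lying exactly in the discs `s, …, t - 1`
      set L : ℝ := (t : ℝ) - 1 - s with hL
      have hL0 : 0 ≤ L := by
        have : (s : ℝ) + 1 ≤ t := by exact_mod_cast hst
        linarith
      have hLk : L ≤ k := by
        have : (t : ℝ) ≤ k + 1 := by exact_mod_cast htk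
        have hs0 : (0 : ℝ) ≤ s := Nat.cast_nonneg s
        linarith
      set hh : ℝ := L / 2 + 1 / 4 with hhh
      have hhR : hh ^ 2 ≤ ((k : ℝ) + 1) ^ 2 := by
        apply pow_le_pow_left₀ (by positivity)
        rw [hhh]; linarith
      set b : ℝ := Real.sqrt (((k : ℝ) + 1) ^ 2 - hh ^ 2) with hb
      have hb2 : b ^ 2 = ((k : ℝ) + 1) ^ 2 - hh ^ 2 := Real.sq_sqrt (by linarith)
      set a : ℝ := s + L / 2 with ha
      have key : ∀ j : ℕ, (!₂[a, b] : Plane) ∈ disc (ch k j) ↔ s ≤ j ∧ j < t := by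
        intro j
        rw [mem_disc_iff (ch k j) (by simp only [ch]; positivity)]
        have e1 : Mem X Y R ((!₂[a, b] : Plane) 0) ((!₂[a, b] : Plane) 1) (ch k j) ↔
            (a - j) ^ 2 + (b - 0) ^ 2 ≤ ((k : ℝ) + 1) ^ 2 := by
          simp [Mem, X, Y, R, ch]
        rw [e1, sub_zero, hb2]
        have hh0 : 0 ≤ hh := by positivity
        constructor
        · intro h3
          have h4 : (a - j) ^ 2 ≤ hh ^ 2 := by linarith
          have h5 := abs_le_of_sq_le_sq' h4 hh0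
          constructor
          · by_contra hlt
            push Not at hlt
            have : (j : ℝ) + 1 ≤ s := by exact_mod_cast hlt
            have h6 := h5.2
            rw [ha, hhh] at h6
            linarith
          · by_contra hlt
            push Not at hlt
            have : (t : ℝ) ≤ j := by exact_mod_cast hlt
            have h6 := h5.1
            rw [ha, hhh] at h6
            linarith
        · rintro ⟨h3, h4⟩
          have h3' : (s : ℝ) ≤ j := by exact_mod_cast h3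
          have h4' : (j : ℝ) + 1 ≤ t := by exact_mod_cast h4
          have h7 : (a - j) ^ 2 ≤ hh ^ 2 := by
            apply sq_le_sq'
            · rw [ha, hhh]; linarith
            · rw [ha, hhh]; linarith
          linarith
      obtain ⟨d, hd1, hd2⟩ := hχ !₂[a, b] ⟨⟨ch k s, hmem s (by omega)⟩, (key s).mpr ⟨le_refl _, hst⟩⟩
      obtain ⟨i, hi1, hi2⟩ := Finset.mem_image.mp d.2
      have hik : i < k + 1 := Finset.mem_range.mp hi1
      have hd : d = ⟨ch k i, hmem i hik⟩ := Subtype.ext hi2.symm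
      have hi3 := (key i).mp (by rw [hi2]; exact hd1)
      refine ⟨i, hi3.1, hi3.2, ?_⟩
      intro j hj1 hj2 hne
      have hjk : j < k + 1 := by omega
      have h8 := hd2 ⟨ch k j, hmem j hjk⟩ ((key j).mpr ⟨hj1, hj2⟩) (by
        intro h9
        rw [hd] at h9
        exact hne (ch_inj k (congrArg Subtype.val h9)))
      intro h10
      apply h8
      apply Fin.ext
      simp only [χ', hjk, hik, dif_pos] at h10
      rw [h10, hd]
  omega

/-- The order of magnitude of `f` is `log k`. -/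
theorem result : ∃ c C : ℝ, 0 < c ∧ 0 < C ∧ ∀ k : ℕ, 2 ≤ k →
    c * Real.log k ≤ f k ∧ (f k : ℝ) ≤ C * Real.log k := by
  refine ⟨1, 3000, one_pos, by norm_num, ?_⟩
  intro k hk
  obtain ⟨t, ht, hD⟩ := upper k hk
  have hne : {m : ℕ | ∀ D : Finset (Plane × ℝ), Admissible k D →
      ∃ χ : D → Fin m, ConflictFree D χ}.Nonempty := ⟨8 * t, hD⟩
  constructor
  · have h1 : k < 2 ^ f k := lower k (f k) (Nat.sInf_mem hne)
    have h2 : (k : ℝ) ≤ 2 ^ f k := by exact_mod_cast h1.le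
    have h3 : Real.log k ≤ f k * Real.log 2 := by
      rw [← Real.log_pow]
      exact Real.log_le_log (by positivity) h2
    have h4 : Real.log 2 ≤ 1 := by
      have := Real.log_two_lt_d9
      linarith
    have h5 : (0 : ℝ) ≤ f k := Nat.cast_nonneg _
    nlinarith
  · refine le_trans ?_ ht
    have h6 : f k ≤ 8 * t := Nat.sInf_le hD
    exact_mod_cast h6

end Pool.Agent.Results.MP_91129c_co.LogOrder
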